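import Pool.Agent.Work.MP_c51bc2_nt.Interface

/-!
# MP_c51bc2_nt: the same theorems on `[T, T+H]`, `T^{1/2+ε} ≤ H ≤ T`

`δ` is a small parameter, `H ≥ T^{1/2+4δ}`; the kernel satisfies `ψ(ξ) = 0` for `ξ ≤ -δ` and the chain
satisfies `∑ lam_j log X_{j+1} ≤ δ log T / 100`.
-/

open Finset Complex MeasureTheory

namespace HZS

noncomputable section

/-- the chain is short -/
def Sh (δ L : ℝ) (R : ℕ) (X lam : ℕ → ℝ) : Prop :=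
  ∑ j ∈ range R, lam j * Real.log (X (j + 1)) ≤ δ * L / 100

/-- admissible lengths -/
def Adm (δ T H : ℝ) : Prop := T ^ (1 / 2 + 4 * δ) ≤ H ∧ H ≤ T

/-- KERs: the kernel exists. -/
def Stmt_KERs : Prop := ∀ δ : ℝ, 0 < δ → δ ≤ 1 / 20 →
  ∃ (k : ℝ → ℂ) (ψ : ℝ → ℝ), IsKer k ψ ∧ ∀ ξ : ℝ, ξ ≤ -δ → ψ ξ = 0

/-- FRZs: freezing `θ'(t)` and the mean value theorem. -/
def Stmt_FRZs : Prop := ∀ δ : ℝ, 0 < δ → δ ≤ 1 / 20 → ∃ C T0 : ℝ, 0 < C ∧ 1 < T0 ∧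
  ∀ (T H Q : ℝ) (b : ℕ → ℂ) (Y : ℕ) (G G' : ℝ → ℂ), T0 ≤ T → Adm δ T H → 0 ≤ Q →
    (Y : ℝ) ≤ T ^ δ → (∀ d, Y < d → b d = 0) →
    (∀ y, HasDerivAt G (G' y) y) → Continuous G' →
    (∀ y : ℝ, y ≤ -(δ * Real.log T) → G y = 0) →
    (∀ y : ℝ, |y - Real.log T / 2| ≤ Real.log T / 100 →
      ∑ m ∈ Icc 1 ⌊T ^ (1 / 2 + 3 * δ)⌋₊,
        ‖∑ d ∈ m.divisors, b d * G (y - Real.log m + Real.log d)‖ ^ 2 / (m : ℝ) ≤ Q ∧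
      ∑ m ∈ Icc 1 ⌊T ^ (1 / 2 + 3 * δ)⌋₊,
        ‖∑ d ∈ m.divisors, b d * G' (y - Real.log m + Real.log d)‖ ^ 2 / (m : ℝ) ≤ Q) →
    ∫ t in T..(T + H), ‖∑ n ∈ Icc 1 (N0 T), mo n t * G (dth t - Real.log n)‖ ^ 2 *
      ‖D b Y t‖ ^ 2 ≤ C * H * Q

/-- MVPs: the mean value of a product with unique factorisation. -/
def Stmt_MVPs : Prop := ∀ (T H : ℝ) (Y : ℕ) (A E : Finset ℕ) (a e : ℕ → ℂ), 0 < H → 1 ≤ Y →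
  (∀ x ∈ A, ∀ y ∈ E, 1 ≤ x * y ∧ x * y ≤ Y) →
  (∀ x ∈ A, ∀ y ∈ E, ∀ x' ∈ A, ∀ y' ∈ E, x * y = x' * y' → x = x' ∧ y = y') →
  4 * (Y : ℝ) * (1 + Real.log Y) ≤ H →
    ∫ t in T..(T + H), ‖∑ x ∈ A, a x * mo x t‖ ^ 2 * ‖∑ y ∈ E, e y * mo y t‖ ^ 2 ≤
      2 * H * ((∑ x ∈ A, ‖a x‖ ^ 2 / (x : ℝ)) * ∑ y ∈ E, ‖e y‖ ^ 2 / (y : ℝ))

/-- TWs: the twisted second moment of the short integral. -/
def Stmt_TWs : Prop := ∀ δ : ℝ, 0 < δ → δ ≤ 1 / 20 → ∃ C T0 : ℝ, 0 < C ∧ 1 < T0 ∧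
  ∀ (T H : ℝ) (R : ℕ) (X lam : ℕ → ℝ), T0 ≤ T → Adm δ T H →
  IsChain (Real.log T) R X lam → Sh δ (Real.log T) R X lam → ∀ j ≤ R, ∀ h : ℝ,
    1 / Real.log T ≤ h → h ≤ 1 → h * Real.log (X j) ≤ 1 → Real.log (X j) ≤ Real.log T / 8 →
      ∫ t in T..(T + H), |J h t| ^ 2 * ‖MM X lam (range j) t‖ ^ 2 ≤
        C * H * h * Real.log (X j) ^ (-(3 / 4) : ℝ)

/-- MOs: the moments of `N` and `P`. -/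
def Stmt_MOs : Prop := ∃ C T0 : ℝ, 0 < C ∧ 1 < T0 ∧ ∀ (T H : ℝ) (R : ℕ) (X lam : ℕ → ℝ), T0 ≤ T →
  T ^ (1 / 2 : ℝ) ≤ H → IsChain (Real.log T) R X lam → ∀ j ≤ R,
    (∫ t in T..(T + H), ‖NN X lam (range j) t‖ ^ 2 ≤ C * H * Real.log (X j) ^ (1 / 4 : ℝ)) ∧
    (j < R → ∫ t in T..(T + H), ‖NN X lam (range j) t‖ ^ 2 * ‖PP X j t‖ ^ (2 * mm lam j) ≤
      C * H * Real.log (X j) ^ (1 / 4 : ℝ) *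
        (((mm lam j).factorial : ℝ) * lam j ^ (mm lam j)))

/-- MAINs: the main inequality for a chain with top `exp(1/h)`. -/
def Stmt_MAINs : Prop := ∀ δ : ℝ, 0 < δ → δ ≤ 1 / 20 → ∃ C T0 : ℝ, 0 < C ∧ 1 < T0 ∧
  ∀ (T H h : ℝ) (R : ℕ) (X lam : ℕ → ℝ), T0 ≤ T → Adm δ T H → IsChain (Real.log T) R X lam →
    Sh δ (Real.log T) R X lam →
    X R = Real.exp (1 / h) → 1 / Real.log T ≤ h → h ≤ 1 → 1 / h ≤ Real.log T / 8 →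
      ∫ t in T..(T + H), |J h t| ≤ C * H * h ^ (3 / 4 : ℝ)

/-- PARs: the chain exists. -/
def Stmt_PARs : Prop := ∀ δ : ℝ, 0 < δ → δ ≤ 1 / 20 → ∃ W0 L0 : ℝ, 8 ≤ W0 ∧ 1 < L0 ∧
  ∀ L W : ℝ, L0 ≤ L → W0 ≤ W → W ≤ L / 5 →
  ∃ (R : ℕ) (X lam : ℕ → ℝ), IsChain L R X lam ∧ Sh δ L R X lam ∧ X R = Real.exp (L / W) ∧
    ∑ j ∈ range R, Real.exp (-lam j) ≤ 1 / W

/-- TW0s: the twisted second moment of `Z`. -/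
def Stmt_TW0s : Prop := ∀ δ : ℝ, 0 < δ → δ ≤ 1 / 20 → ∃ C T0 : ℝ, 0 < C ∧ 1 < T0 ∧
  ∀ (T H : ℝ) (R : ℕ) (X lam : ℕ → ℝ), T0 ≤ T → Adm δ T H →
  IsChain (Real.log T) R X lam → Sh δ (Real.log T) R X lam →
    ∀ j ≤ R, Real.log (X j) ≤ Real.log T / 8 →
      ∫ t in T..(T + H), |Z t| ^ 2 * ‖MM X lam (range j) t‖ ^ 2 ≤
        C * H * Real.log T * Real.log (X j) ^ (-(3 / 4) : ℝ)

/-- MO2s: the moments of `N_R` and `P_j`. -/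
def Stmt_MO2s : Prop := ∃ C T0 : ℝ, 0 < C ∧ 1 < T0 ∧
  ∀ (T H : ℝ) (R : ℕ) (X lam : ℕ → ℝ), T0 ≤ T → T ^ (1 / 2 : ℝ) ≤ H →
  IsChain (Real.log T) R X lam → ∀ j < R,
    ∫ t in T..(T + H), ‖NN X lam (range R) t‖ ^ 2 * ‖PP X j t‖ ^ (2 * mm lam j) ≤
      C * H * Real.log (X R) ^ (1 / 4 : ℝ) * Real.exp (lam j / 2) *
        (((mm lam j).factorial : ℝ) * (2 * lam j) ^ (mm lam j))

/-- TFs: the twisted first moment. -/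
def Stmt_TFs : Prop := ∀ δ : ℝ, 0 < δ → δ ≤ 1 / 20 → ∃ C T0 : ℝ, 0 < C ∧ 1 < T0 ∧
  ∀ (T H : ℝ) (R : ℕ) (X lam : ℕ → ℝ), T0 ≤ T → Adm δ T H →
  IsChain (Real.log T) R X lam → Sh δ (Real.log T) R X lam →
  ∀ Y : ℕ, T ^ (2 * δ / 3) ≤ Y → (Y : ℝ) ≤ T ^ δ →
    ‖(∫ t in T..(T + H), riemannZeta (1 / 2 + I * t) * MM X lam (range R) t *
        (starRingEnd ℂ) (NN X lam (range R) t)) -
      H * ∑ n ∈ Icc 1 Y, cN X lam (range R) n * B (cM X lam (range R)) 0 n / (n : ℂ)‖ ≤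
        C * T ^ (1 / 2 + 3 * δ)

/-- LBFs: the lower bound for the first moment. -/
def Stmt_LBFs : Prop := ∀ δ : ℝ, 0 < δ → δ ≤ 1 / 20 → ∃ c T0 : ℝ, 0 < c ∧ 1 < T0 ∧
  ∀ T H : ℝ, T0 ≤ T → Adm δ T H → c * H * Real.log T ^ (1 / 4 : ℝ) ≤ ∫ t in T..(T + H), |Z t|

/-- ZBs: the trivial bound. -/
def Stmt_ZBs : Prop := ∃ C T0 : ℝ, 0 < C ∧ 1 < T0 ∧ ∀ T t : ℝ, T0 ≤ T → T / 2 ≤ t → t ≤ 3 * T →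
  |Z t| ≤ C * Real.sqrt T

/-- FINAs: the first moment of short integrals. -/
def Stmt_FINAs : Prop := ∀ δ : ℝ, 0 < δ → δ ≤ 1 / 20 → ∃ C T0 W0 : ℝ, 0 < C ∧ 1 < T0 ∧ 0 < W0 ∧
  ∀ T H h : ℝ, T0 ≤ T → Adm δ T H → W0 / Real.log T ≤ h → h ≤ 1 / 5 →
    ∫ t in T..(T + H), |J h t| ≤ C * H * h ^ (3 / 4 : ℝ)

/-- FINBs: the points far from the sign changes. -/
def Stmt_FINBs : Prop := ∀ δ : ℝ, 0 < δ → δ ≤ 1 / 20 → ∃ C T0 W0 : ℝ, 0 < C ∧ 1 < T0 ∧ 0 < W0 ∧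
  ∀ T H h : ℝ, T0 ≤ T → Adm δ T H → W0 / Real.log T ≤ h → h ≤ 1 / 5 →
    ∫ t in {u | u ∈ Set.Icc T (T + H) ∧ Far h u}, |Z t| ≤ C * H * h ^ (-(1 / 4) : ℝ)

/-- FINCs: balance of the positive and the negative part in short windows. -/
def Stmt_FINCs : Prop := ∀ δ : ℝ, 0 < δ → δ ≤ 1 / 20 → ∃ C T0 W0 : ℝ, 0 < C ∧ 1 < T0 ∧ 0 < W0 ∧
  ∀ T H h : ℝ, T0 ≤ T → Adm δ T H → W0 / Real.log T ≤ h → h ≤ 1 / 5 →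
    ∫ t in T..(T + H), |Ip t h + Im t h| ≤
      C * (h * Real.log T) ^ (-(1 / 4) : ℝ) * ∫ t in T..(T + H), (Ip t h - Im t h)

/-- FINDs: the points far from the sign changes carry little mass. -/
def Stmt_FINDs : Prop := ∀ δ : ℝ, 0 < δ → δ ≤ 1 / 20 → ∃ C T0 W0 : ℝ, 0 < C ∧ 1 < T0 ∧ 0 < W0 ∧
  ∀ T H h : ℝ, T0 ≤ T → Adm δ T H → W0 / Real.log T ≤ h → h ≤ 1 / 5 →
    ∫ t in {u | u ∈ Set.Icc T (T + H) ∧ Far h u}, |Z t| ≤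
      C * (h * Real.log T) ^ (-(1 / 4) : ℝ) * ∫ t in T..(T + H), |Z t|

end

end HZS
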