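import Pool.Agent.Work.MP_c51bc2_nt.B_FINB
import Pool.Agent.Work.MP_c51bc2_nt_s.Interface

set_option autoImplicit false

open Finset Complex MeasureTheory
open scoped ENNReal

namespace HZS

theorem finbs_fubini (hZ : Stmt_ZC) (a b h : ℝ) (hh : 0 < h) (hab : a ≤ b) :
    h * ∫ t in {u | u ∈ Set.Icc a b ∧ Far h u}, |Z t| ≤
      ∫ t in (a - h)..b, |J h t| := by
  have hZc : Continuous Z := hZ
  have hJc := finb_contJ hZ h
  set S : Set ℝ := {u | u ∈ Set.Icc a b ∧ Far h u} with hS
  have hSm : MeasurableSet S := (isClosed_Icc.inter (finb_closed h)).measurableSet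
  set f : ℝ → ℝ≥0∞ := S.indicator (fun u => ENNReal.ofReal |Z u|) with hf
  have hfm : Measurable f := (hZc.abs.measurable.ennreal_ofReal).indicator hSm
  have e1 : ENNReal.ofReal (∫ t in S, |Z t|) = ∫⁻ u, f u := by
    rw [hf, lintegral_indicator hSm]
    rw [ofReal_integral_eq_lintegral_ofReal]
    · have h1 : IntegrableOn (fun t => |Z t|) (Set.Icc a b) volume :=
        hZc.abs.continuousOn.integrableOn_compact isCompact_Icc
      exact h1.mono_set fun u hu => hu.1
    · exact Filter.Eventually.of_forall fun t => abs_nonneg _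
  have e2 : ∫⁻ t, ∫⁻ s in Set.Ioo 0 h, f (t + s) = ENNReal.ofReal h * ∫⁻ u, f u := by
    rw [lintegral_lintegral_swap]
    · have : ∀ s : ℝ, ∫⁻ t, f (t + s) = ∫⁻ u, f u := fun s => lintegral_add_right_eq_self f s
      simp_rw [this]
      rw [lintegral_const, Measure.restrict_apply MeasurableSet.univ, Set.univ_inter,
        Real.volume_Ioo, sub_zero, mul_comm]
    · exact (hfm.comp (measurable_fst.add measurable_snd)).aemeasurable
  have e3 : ∀ t, ∫⁻ s in Set.Ioo 0 h, f (t + s) ≤
      (Set.Icc (a - h) b).indicator (fun t => ENNReal.ofReal |J h t|) t := by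
    intro t
    by_cases hex : ∃ s ∈ Set.Ioo 0 h, t + s ∈ S
    · obtain ⟨s, hs, hsS⟩ := hex
      have ht : t ∈ Set.Icc (a - h) b := by
        have h1 := hsS.1.1
        have h2 := hsS.1.2
        constructor <;> linarith [hs.1, hs.2]
      rw [Set.indicator_of_mem ht, finb_sign h t (t + s) (by linarith [hs.1])
        (by linarith [hs.2]) hsS.2]
      have h2 : ∫ x in t..(t + h), |Z x| = ∫ s in Set.Ioo 0 h, |Z (t + s)| := by
        have := intervalIntegral.integral_comp_add_left (f := fun x => |Z x|) (a := 0) (b := h) t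
        rw [add_zero] at this
        rw [← this, intervalIntegral.integral_of_le hh.le, integral_Ioc_eq_integral_Ioo]
      rw [h2, ofReal_integral_eq_lintegral_ofReal]
      · apply lintegral_mono
        intro s
        exact Set.indicator_le_self' (fun _ _ => zero_le) _
      · have h1 : IntegrableOn (fun s => |Z (t + s)|) (Set.Icc 0 h) volume :=
          ((hZc.comp (continuous_const.add continuous_id)).abs).continuousOn.integrableOn_compact
            isCompact_Icc
        exact h1.mono_set Set.Ioo_subset_Icc_self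
      · exact Filter.Eventually.of_forall fun t => abs_nonneg _
    · have h0 : ∫⁻ s in Set.Ioo 0 h, f (t + s) = 0 := by
        rw [setLIntegral_congr_fun measurableSet_Ioo (g := fun _ => 0)]
        · simp
        · intro s hs
          apply Set.indicator_of_notMem
          intro hm
          exact hex ⟨s, hs, hm⟩
      rw [h0]
      exact zero_le
  have e4 : ∫⁻ t, (Set.Icc (a - h) b).indicator (fun t => ENNReal.ofReal |J h t|) t =
      ENNReal.ofReal (∫ t in (a - h)..b, |J h t|) := by
    rw [lintegral_indicator measurableSet_Icc, intervalIntegral.integral_of_le (by linarith),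
      ← integral_Icc_eq_integral_Ioc, ofReal_integral_eq_lintegral_ofReal]
    · exact hJc.abs.continuousOn.integrableOn_compact isCompact_Icc
    · exact Filter.Eventually.of_forall fun t => abs_nonneg _
  have e5 : ENNReal.ofReal (h * ∫ t in S, |Z t|) ≤
      ENNReal.ofReal (∫ t in (a - h)..b, |J h t|) := by
    rw [ENNReal.ofReal_mul hh.le, e1, ← e2, ← e4]
    exact lintegral_mono e3
  have hnn : 0 ≤ ∫ t in (a - h)..b, |J h t| :=
    intervalIntegral.integral_nonneg (by linarith) fun x _ => abs_nonneg _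
  exact (ENNReal.ofReal_le_ofReal_iff hnn).mp e5

theorem stmt_FINBs (hA : Stmt_FINAs) (hZB : Stmt_ZBs) (hZ : Stmt_ZC) : Stmt_FINBs := by
  intro δ hδ hδ1
  obtain ⟨C, T0, W0, hC, hT0, hW0, hA⟩ := hA δ hδ hδ1
  obtain ⟨C3, T3, hC3, hT3, hB⟩ := hZB
  refine ⟨C + C3, max T0 T3, W0, by positivity, lt_max_of_lt_left hT0, hW0,
    fun T H h hT hAdm hh1 hh2 => ?_⟩
  have hT1 : T0 ≤ T := (le_max_left _ _).trans hT
  have hT2 : T3 ≤ T := (le_max_right _ _).trans hT
  have hTpos : 0 < T := by linarith
  have hlT0 : 0 < Real.log T := Real.log_pos (by linarith)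
  have hhpos : 0 < h := lt_of_lt_of_le (by positivity) hh1
  have hsH : Real.sqrt T ≤ H := by
    rw [Real.sqrt_eq_rpow]
    exact le_trans (Real.rpow_le_rpow_of_exponent_le (by linarith) (by linarith)) hAdm.1
  have hs1 : 1 ≤ Real.sqrt T := by
    rw [Real.one_le_sqrt]
    linarith
  have hH1 : 1 ≤ H := hs1.trans hsH
  have hH0 : 0 < H := by linarith
  have i2 := hA T H h hT1 hAdm hh1 hh2
  have hZc : Continuous Z := hZ
  have hJc := finb_contJ hZ h
  have hI : ∀ a b : ℝ, IntervalIntegrable (fun t => |J h t|) volume a b :=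
    fun a b => hJc.abs.intervalIntegrable a b
  have hfub := finbs_fubini hZ (T + h) (T + H) h hhpos (by linarith)
  rw [add_sub_cancel_right] at hfub
  have h7 : h ^ (3 / 4 : ℝ) = h * h ^ (-(1 / 4) : ℝ) := by
    have : (3 / 4 : ℝ) = 1 + (-(1 / 4)) := by norm_num
    rw [this, Real.rpow_add hhpos, Real.rpow_one]
  rw [h7] at i2
  have h8 : h * ∫ t in {u | u ∈ Set.Icc (T + h) (T + H) ∧ Far h u}, |Z t| ≤
      h * (C * H * h ^ (-(1 / 4) : ℝ)) := by
    linarith
  have h9 := le_of_mul_le_mul_left h8 hhpos
  -- the beginning of the interval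
  have h10 : ∫ t in Set.Icc T (T + h), |Z t| ≤ C3 * H := by
    have g5 : ∫ u in T..(T + h), |Z u| ≤ ∫ u in T..(T + h), C3 * Real.sqrt T := by
      apply intervalIntegral.integral_mono_on (by linarith) (hZc.abs.intervalIntegrable _ _)
        (by simp)
      intro u hu
      exact hB T u hT2 (by linarith [hu.1]) (by linarith [hu.2])
    rw [intervalIntegral.integral_const, smul_eq_mul, add_sub_cancel_left,
      intervalIntegral.integral_of_le (by linarith), ← integral_Icc_eq_integral_Ioc] at g5
    refine g5.trans ?_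
    calc h * (C3 * Real.sqrt T) ≤ 1 * (C3 * H) := by
          apply mul_le_mul (by linarith) _ (by positivity) (by norm_num)
          exact mul_le_mul_of_nonneg_left hsH hC3.le
      _ = C3 * H := one_mul _
  have h11 : (1 : ℝ) ≤ h ^ (-(1 / 4) : ℝ) :=
    Real.one_le_rpow_of_pos_of_le_one_of_nonpos hhpos (by linarith) (by norm_num)
  have hint : IntegrableOn (fun t => |Z t|) (Set.Icc T (T + H)) volume :=
    hZc.abs.continuousOn.integrableOn_compact isCompact_Icc
  have h12 : ∫ t in {u | u ∈ Set.Icc T (T + H) ∧ Far h u}, |Z t| ≤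
      (∫ t in Set.Icc T (T + h), |Z t|) +
        ∫ t in {u | u ∈ Set.Icc (T + h) (T + H) ∧ Far h u}, |Z t| := by
    have hsub : {u | u ∈ Set.Icc T (T + H) ∧ Far h u} ⊆
        Set.Icc T (T + h) ∪ {u | u ∈ Set.Icc (T + h) (T + H) ∧ Far h u} := by
      intro u hu
      rcases le_total u (T + h) with h' | h'
      · exact Or.inl ⟨hu.1.1, h'⟩
      · exact Or.inr ⟨⟨h', hu.1.2⟩, hu.2⟩
    have hi1 : IntegrableOn (fun t => |Z t|) (Set.Icc T (T + h)) volume :=
      hZc.abs.continuousOn.integrableOn_compact isCompact_Icc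
    have hi2 : IntegrableOn (fun t => |Z t|) {u | u ∈ Set.Icc (T + h) (T + H) ∧ Far h u} volume :=
      (hZc.abs.continuousOn.integrableOn_compact isCompact_Icc).mono_set fun u hu => hu.1
    calc ∫ t in {u | u ∈ Set.Icc T (T + H) ∧ Far h u}, |Z t| ≤
        ∫ t in Set.Icc T (T + h) ∪ {u | u ∈ Set.Icc (T + h) (T + H) ∧ Far h u}, |Z t| := by
          refine setIntegral_mono_set (hi1.union hi2) ?_ hsub.eventuallyLE
          exact Filter.Eventually.of_forall fun t => abs_nonneg _
      _ ≤ _ := by
          have h13 := ENNReal.ofReal_le_ofReal_iff (p := ∫ t in Set.Icc T (T + h) ∪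
            {u | u ∈ Set.Icc (T + h) (T + H) ∧ Far h u}, |Z t|) (q := (∫ t in Set.Icc T (T + h),
              |Z t|) + ∫ t in {u | u ∈ Set.Icc (T + h) (T + H) ∧ Far h u}, |Z t|) (by
                apply add_nonneg <;> exact integral_nonneg fun t => abs_nonneg _)
          rw [← h13, ENNReal.ofReal_add (integral_nonneg fun t => abs_nonneg _)
            (integral_nonneg fun t => abs_nonneg _), ofReal_integral_eq_lintegral_ofReal
              (hi1.union hi2) (Filter.Eventually.of_forall fun t => abs_nonneg _),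
            ofReal_integral_eq_lintegral_ofReal hi1
              (Filter.Eventually.of_forall fun t => abs_nonneg _),
            ofReal_integral_eq_lintegral_ofReal hi2
              (Filter.Eventually.of_forall fun t => abs_nonneg _)]
          exact lintegral_union_le _ _ _
  have h14 : C3 * H ≤ C3 * H * h ^ (-(1 / 4) : ℝ) :=
    le_mul_of_one_le_right (by positivity) h11
  calc ∫ t in {u | u ∈ Set.Icc T (T + H) ∧ Far h u}, |Z t| ≤ _ := h12
    _ ≤ C3 * H * h ^ (-(1 / 4) : ℝ) + C * H * h ^ (-(1 / 4) : ℝ) :=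
        add_le_add (h10.trans h14) h9
    _ = (C + C3) * H * h ^ (-(1 / 4) : ℝ) := by ring

end HZS
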