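import Pool.Agent.Work.MP_c51bc2_nt.B_FINC
import Pool.Agent.Work.MP_c51bc2_nt_s.Interface

open Finset Complex MeasureTheory

namespace HZS

/-- Averages of short integrals from below, without Fubini. -/
theorem FINCs_avg (g : ℝ → ℝ) (hg : Continuous g) (hg0 : ∀ x, 0 ≤ g x) (T H h : ℝ)
    (hh : 0 ≤ h) :
    h * ((∫ u in T..(T + H), g u) - ∫ u in T..(T + h), g u) ≤
      ∫ t in T..(T + H), ∫ u in t..(t + h), g u := by
  have hint : ∀ a b : ℝ, IntervalIntegrable g volume a b := fun a b => hg.intervalIntegrable a b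
  set F : ℝ → ℝ := fun x => ∫ u in T..x, g u with hF
  have hFc : Continuous F := intervalIntegral.continuous_primitive hint T
  have hFm : Monotone F := by
    intro x y hxy
    have h1 : F y - F x = ∫ u in x..y, g u := by
      rw [hF]
      simp only
      rw [← intervalIntegral.integral_add_adjacent_intervals (hint T x) (hint x y)]
      ring
    have h2 : 0 ≤ ∫ u in x..y, g u :=
      intervalIntegral.integral_nonneg hxy fun u _ => hg0 u
    linarith
  have hFi : ∀ a b : ℝ, IntervalIntegrable F volume a b := fun a b => hFc.intervalIntegrable a b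
  have e1 : ∀ t, ∫ u in t..(t + h), g u = F (t + h) - F t := by
    intro t
    rw [hF]
    simp only
    rw [← intervalIntegral.integral_add_adjacent_intervals (hint T t) (hint t (t + h))]
    ring
  have e2 : ∫ t in T..(T + H), ∫ u in t..(t + h), g u =
      (∫ t in (T + H)..(T + H + h), F t) - ∫ t in T..(T + h), F t := by
    rw [intervalIntegral.integral_congr (g := fun t => F (t + h) - F t) (fun t _ => e1 t)]
    rw [intervalIntegral.integral_sub]
    · rw [intervalIntegral.integral_comp_add_right (fun x => F x) h]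
      have e3 := intervalIntegral.integral_add_adjacent_intervals (hFi (T + h) (T + H))
        (hFi (T + H) (T + H + h))
      have e4 := intervalIntegral.integral_add_adjacent_intervals (hFi T (T + h))
        (hFi (T + h) (T + H))
      rw [← e3, ← e4]
      ring
    · exact (hFc.comp (continuous_add_const h)).intervalIntegrable _ _
    · exact hFi _ _
  rw [e2]
  have l1 : h * F (T + H) ≤ ∫ t in (T + H)..(T + H + h), F t := by
    have : ∫ t in (T + H)..(T + H + h), F (T + H) = h * F (T + H) := by
      rw [intervalIntegral.integral_const, smul_eq_mul]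
      ring
    rw [← this]
    apply intervalIntegral.integral_mono_on (by linarith) (by simp) (hFi _ _)
    intro x hx
    exact hFm hx.1
  have l2 : ∫ t in T..(T + h), F t ≤ h * F (T + h) := by
    have : ∫ t in T..(T + h), F (T + h) = h * F (T + h) := by
      rw [intervalIntegral.integral_const, smul_eq_mul]
      ring
    rw [← this]
    apply intervalIntegral.integral_mono_on (by linarith) (hFi _ _) (by simp)
    intro x hx
    exact hFm hx.2
  have l3 : h * ((∫ u in T..(T + H), g u) - ∫ u in T..(T + h), g u) =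
      h * F (T + H) - h * F (T + h) := by
    rw [hF]
    ring
  rw [l3]
  linarith

theorem stmt_FINCs (hA : Stmt_FINAs) (hLB : Stmt_LBFs) (hZB : Stmt_ZBs) (hZC : Stmt_ZC) :
    Stmt_FINCs := by
  intro δ hδ hδ1
  obtain ⟨C1, T1, W1, hC1, hT1, hW1, h1⟩ := hA δ hδ hδ1
  obtain ⟨c, T2, hc, hT2, h2⟩ := hLB δ hδ hδ1
  obtain ⟨C3, T3, hC3, hT3, h3⟩ := hZB
  refine ⟨2 * C1 / c, max (max T1 T2) (max T3 (Real.exp ((2 * C3 / c) ^ 4))), W1,
    by positivity, lt_of_lt_of_le hT1 ((le_max_left _ _).trans (le_max_left _ _)), hW1, ?_⟩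
  intro T H h hT hAdm hWh hh
  have hTT1 : T1 ≤ T := ((le_max_left _ _).trans (le_max_left _ _)).trans hT
  have hTT2 : T2 ≤ T := ((le_max_right _ _).trans (le_max_left _ _)).trans hT
  have hTT3 : T3 ≤ T := ((le_max_left _ _).trans (le_max_right _ _)).trans hT
  have hTe : Real.exp ((2 * C3 / c) ^ 4) ≤ T :=
    ((le_max_right _ _).trans (le_max_right _ _)).trans hT
  have hT0 : 1 < T := by linarith
  have hTpos : 0 < T := by linarith
  have hlog : 0 < Real.log T := Real.log_pos hT0
  have hh0 : 0 < h := lt_of_lt_of_le (div_pos hW1 hlog) hWh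
  have hsH : Real.sqrt T ≤ H := by
    rw [Real.sqrt_eq_rpow]
    exact le_trans (Real.rpow_le_rpow_of_exponent_le hT0.le (by linarith)) hAdm.1
  have hH0 : 0 < H := lt_of_lt_of_le (Real.sqrt_pos.2 hTpos) hsH
  have hLc : (2 * C3 / c) ^ 4 ≤ Real.log T := by
    rw [← Real.log_exp ((2 * C3 / c) ^ 4)]
    exact Real.log_le_log (Real.exp_pos _) hTe
  have hL4 : 2 * C3 / c ≤ Real.log T ^ (1 / 4 : ℝ) := by
    have e : 2 * C3 / c = ((2 * C3 / c) ^ 4) ^ (1 / 4 : ℝ) := by
      rw [← Real.rpow_natCast, ← Real.rpow_mul (by positivity)]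
      norm_num
    rw [e]
    exact Real.rpow_le_rpow (by positivity) hLc (by norm_num)
  have hZi : ∀ a b : ℝ, IntervalIntegrable Z volume a b := fun a b => hZC.intervalIntegrable a b
  have hmaxc : Continuous fun u => max (Z u) 0 := hZC.max continuous_const
  have hminc : Continuous fun u => min (Z u) 0 := hZC.min continuous_const
  have eJ : ∀ t, Ip t h + Im t h = J h t := by
    intro t
    unfold Ip Im J
    rw [← intervalIntegral.integral_add (hmaxc.intervalIntegrable _ _)
      (hminc.intervalIntegrable _ _)]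
    apply intervalIntegral.integral_congr
    intro u _
    simp only
    rw [add_comm, min_add_max, add_zero]
  have eA : ∀ t, Ip t h - Im t h = ∫ u in t..(t + h), |Z u| := by
    intro t
    unfold Ip Im
    rw [← intervalIntegral.integral_sub (hmaxc.intervalIntegrable _ _)
      (hminc.intervalIntegrable _ _)]
    apply intervalIntegral.integral_congr
    intro u _
    simp only
    rw [max_sub_min_eq_abs, zero_sub, abs_neg]
  have e1 : ∫ t in T..(T + H), |Ip t h + Im t h| = ∫ t in T..(T + H), |J h t| :=
    intervalIntegral.integral_congr fun t _ => by simp only [eJ]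
  have e2 : ∫ t in T..(T + H), (Ip t h - Im t h) =
      ∫ t in T..(T + H), ∫ u in t..(t + h), |Z u| :=
    intervalIntegral.integral_congr fun t _ => by simp only [eA]
  rw [e1, e2]
  have g1 := h1 T H h hTT1 hAdm hWh hh
  have g2 := h2 T H hTT2 hAdm
  have g3 := FINCs_avg (fun u => |Z u|) hZC.abs (fun u => abs_nonneg _) T H h hh0.le
  have g4 : ∫ u in T..(T + h), |Z u| ≤ C3 * H := by
    have g5 : ∫ u in T..(T + h), |Z u| ≤ ∫ u in T..(T + h), C3 * Real.sqrt T := by
      apply intervalIntegral.integral_mono_on (by linarith) (hZC.abs.intervalIntegrable _ _)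
        (by simp)
      intro u hu
      exact h3 T u hTT3 (by linarith [hu.1]) (by linarith [hu.2])
    rw [intervalIntegral.integral_const, smul_eq_mul] at g5
    refine g5.trans ?_
    have : T + h - T = h := by ring
    rw [this]
    calc h * (C3 * Real.sqrt T) ≤ 1 * (C3 * H) := by
          apply mul_le_mul (by linarith) _ (by positivity) (by norm_num)
          exact mul_le_mul_of_nonneg_left hsH hC3.le
      _ = C3 * H := one_mul _
  have g7 : C3 * H ≤ c / 2 * H * Real.log T ^ (1 / 4 : ℝ) := by
    have : C3 ≤ c / 2 * Real.log T ^ (1 / 4 : ℝ) := by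
      rw [div_le_iff₀ hc] at hL4
      linarith
    calc C3 * H ≤ (c / 2 * Real.log T ^ (1 / 4 : ℝ)) * H := mul_le_mul_of_nonneg_right this hH0.le
      _ = c / 2 * H * Real.log T ^ (1 / 4 : ℝ) := by ring
  set A : ℝ := ∫ t in T..(T + H), ∫ u in t..(t + h), |Z u| with hAdef
  have g8 : h * (c / 2 * H * Real.log T ^ (1 / 4 : ℝ)) ≤ A := by
    refine le_trans ?_ g3
    apply mul_le_mul_of_nonneg_left _ hh0.le
    linarith
  have hP : 0 ≤ (h * Real.log T) ^ (-(1 / 4) : ℝ) := by positivity
  calc ∫ t in T..(T + H), |J h t| ≤ C1 * H * h ^ (3 / 4 : ℝ) := g1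
    _ = 2 * C1 / c * (h * Real.log T) ^ (-(1 / 4) : ℝ) *
        (h * (c / 2 * H * Real.log T ^ (1 / 4 : ℝ))) := by
        rw [FINC_pow h (Real.log T) hh0 hlog]
        field_simp
    _ ≤ 2 * C1 / c * (h * Real.log T) ^ (-(1 / 4) : ℝ) * A := by
        apply mul_le_mul_of_nonneg_left g8
        positivity

end HZS
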