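import Pool.Agent.Work.MP_c51bc2_nt_s.Interface

open Finset Complex MeasureTheory

namespace HZS

theorem stmt_FINDs (hFINB : Stmt_FINBs) (hLBF : Stmt_LBFs) : Stmt_FINDs := by
  intro δ hδ hδ1
  obtain ⟨C, T1, W0, hC, hT1, hW0, h1⟩ := hFINB δ hδ hδ1
  obtain ⟨c, T2, hc, hT2, h2⟩ := hLBF δ hδ hδ1
  refine ⟨C / c, max T1 T2, W0, by positivity, lt_max_of_lt_left hT1, hW0, ?_⟩
  intro T H h hT hAdm hW hh
  have hT1' : T1 ≤ T := le_trans (le_max_left _ _) hT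
  have hT2' : T2 ≤ T := le_trans (le_max_right _ _) hT
  have hTpos : 0 < T := by linarith
  have hlog : 0 < Real.log T := Real.log_pos (by linarith)
  have hh0 : 0 < h := lt_of_lt_of_le (div_pos hW0 hlog) hW
  refine le_trans (h1 T H h hT1' hAdm hW hh) ?_
  have h3 := h2 T H hT2' hAdm
  have e1 : (h * Real.log T) ^ (-(1 / 4) : ℝ) = h ^ (-(1 / 4) : ℝ) * Real.log T ^ (-(1 / 4) : ℝ) :=
    Real.mul_rpow hh0.le hlog.le
  have e2 : Real.log T ^ (-(1 / 4) : ℝ) * Real.log T ^ (1 / 4 : ℝ) = 1 := by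
    rw [← Real.rpow_add hlog]; norm_num
  have h4 : 0 ≤ C / c * (h * Real.log T) ^ (-(1 / 4) : ℝ) := by positivity
  have h5 := mul_le_mul_of_nonneg_left h3 h4
  refine le_trans (le_of_eq ?_) h5
  rw [e1]
  calc C * H * h ^ (-(1 / 4) : ℝ) = C * H * h ^ (-(1 / 4) : ℝ) *
        (Real.log T ^ (-(1 / 4) : ℝ) * Real.log T ^ (1 / 4 : ℝ)) := by rw [e2, mul_one]
    _ = _ := by field_simp

end HZS
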