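import Pool.Agent.Work.MP_c51bc2_nt_s.Interface

/-! # Block KERs: the kernel exists, with any small support on the negative side (helper68) -/

set_option autoImplicit false

open Finset Complex MeasureTheory
open scoped FourierTransform ContDiff SchwartzMap

namespace HZS

noncomputable section

/-- The Fourier transform of the kernel. -/
def KERs_psi (c x : ℝ) : ℝ :=
  Real.smoothTransition (c * x + 1 / 2) *
    (Real.smoothTransition (3 - x) * Real.smoothTransition (3 + x))

theorem KERs_symm (y : ℝ) : Real.smoothTransition y + Real.smoothTransition (1 - y) = 1 := by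
  have h := Real.smoothTransition.pos_denom y
  unfold Real.smoothTransition
  rw [sub_sub_cancel, add_comm (expNegInvGlue (1 - y)) (expNegInvGlue y), ← add_div]
  exact div_self h.ne'

theorem KERs_contDiff (c : ℝ) : ContDiff ℝ ∞ (KERs_psi c) := by
  have h1 : ContDiff ℝ ∞ (fun x : ℝ => Real.smoothTransition (c * x + 1 / 2)) :=
    Real.smoothTransition.contDiff.comp (by fun_prop)
  have h2 : ContDiff ℝ ∞ (fun x : ℝ => Real.smoothTransition (3 - x)) :=
    Real.smoothTransition.contDiff.comp (by fun_prop)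
  have h3 : ContDiff ℝ ∞ (fun x : ℝ => Real.smoothTransition (3 + x)) :=
    Real.smoothTransition.contDiff.comp (by fun_prop)
  exact h1.mul (h2.mul h3)

theorem KERs_contDiff' (c : ℝ) : ContDiff ℝ ∞ (fun x : ℝ => (KERs_psi c x : ℂ)) :=
  Complex.ofRealCLM.contDiff.comp (KERs_contDiff c)

theorem KERs_supp (c : ℝ) : HasCompactSupport (fun x : ℝ => (KERs_psi c x : ℂ)) := by
  apply HasCompactSupport.of_support_subset_isCompact (K := Set.Icc (-3) 3) isCompact_Icc
  intro x hx
  rw [Function.mem_support] at hx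
  have hx' : KERs_psi c x ≠ 0 := fun h => hx (by rw [h, Complex.ofReal_zero])
  constructor
  · by_contra h
    push Not at h
    apply hx'
    unfold KERs_psi
    rw [Real.smoothTransition.zero_of_nonpos (x := 3 + x) (by linarith), mul_zero, mul_zero]
  · by_contra h
    push Not at h
    apply hx'
    unfold KERs_psi
    rw [Real.smoothTransition.zero_of_nonpos (x := 3 - x) (by linarith), zero_mul, mul_zero]

/-- `psi` as a Schwartz function. -/
def KERs_F (c : ℝ) : 𝓢(ℝ, ℂ) := (KERs_supp c).toSchwartzMap (KERs_contDiff' c)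

theorem KERs_F_apply (c x : ℝ) : KERs_F c x = (KERs_psi c x : ℂ) := rfl

/-- Its Fourier transform. -/
def KERs_g (c : ℝ) : 𝓢(ℝ, ℂ) := 𝓕 (KERs_F c)

/-- The kernel. -/
def KERs_k (c v : ℝ) : ℂ := KERs_g c (v / (2 * Real.pi)) / (2 * Real.pi : ℝ)

theorem KERs_g_eq (c w : ℝ) :
    KERs_g c w = ∫ v : ℝ, cexp (((-2 * Real.pi * v * w : ℝ) : ℂ) * I) * (KERs_psi c v : ℂ) := by
  have h : KERs_g c w = (𝓕 (KERs_F c : ℝ → ℂ)) w := by
    unfold KERs_g
    rw [SchwartzMap.fourier_coe]
  rw [h, Real.fourier_real_eq_integral_exp_smul]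
  rfl

theorem KERs_inv (c ξ : ℝ) :
    (KERs_psi c ξ : ℂ) = ∫ w : ℝ, cexp (((2 * Real.pi * (w * ξ) : ℝ) : ℂ) * I) * KERs_g c w := by
  have h : KERs_F c ξ = (𝓕⁻ (KERs_g c : ℝ → ℂ)) ξ := by
    have h1 : 𝓕⁻ (KERs_g c) = KERs_F c := FourierTransform.fourierInv_fourier_eq (KERs_F c)
    rw [← SchwartzMap.fourierInv_coe, h1]
  rw [← KERs_F_apply, h, Real.fourierInv_eq']
  refine integral_congr_ae (Filter.Eventually.of_forall fun w => ?_)
  simp only [smul_eq_mul]
  congr 4
  simp [mul_comm]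

theorem stmt_KERs : Stmt_KERs := by
  intro δ hδ hδ2
  set c : ℝ := 1 / (2 * δ) with hc
  have hcδ : c * δ = 1 / 2 := by
    rw [hc]
    field_simp
  have hc0 : 0 < c := by
    rw [hc]
    positivity
  have hpi : (0 : ℝ) < 2 * Real.pi := by positivity
  have hpi' : ((2 * Real.pi : ℝ) : ℂ) ≠ 0 := by exact_mod_cast hpi.ne'
  have hzero : ∀ ξ : ℝ, ξ ≤ -δ → KERs_psi c ξ = 0 := by
    intro ξ hξ
    unfold KERs_psi
    rw [Real.smoothTransition.zero_of_nonpos (by nlinarith), zero_mul]
  refine ⟨KERs_k c, KERs_psi c, ⟨?_, ?_, ?_, ?_, ?_, ?_⟩, hzero⟩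
  · exact ((KERs_g c).continuous.comp (by fun_prop)).div_const _
  · intro A
    set C0 : ℝ := 2 ^ A * ((Finset.Iic (A, 0)).sup
      (fun m => SchwartzMap.seminorm ℝ m.1 m.2)) (KERs_g c) with hC0
    refine ⟨7 ^ A * C0, fun v => ?_⟩
    have h1 := SchwartzMap.one_add_le_sup_seminorm_apply (𝕜 := ℝ) (m := (A, 0)) (k := A) (n := 0)
      le_rfl le_rfl (KERs_g c) (v / (2 * Real.pi))
    rw [norm_iteratedFDeriv_zero] at h1
    have h2 : ‖KERs_k c v‖ ≤ ‖KERs_g c (v / (2 * Real.pi))‖ := by
      unfold KERs_k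
      rw [norm_div, Complex.norm_real, Real.norm_of_nonneg hpi.le]
      apply div_le_self (norm_nonneg _)
      have := Real.pi_gt_three
      linarith
    have h3 : 1 + |v| ≤ 7 * (1 + ‖v / (2 * Real.pi)‖) := by
      rw [Real.norm_eq_abs, abs_div, abs_of_pos hpi]
      have h4 := Real.pi_lt_d2
      have h5 : |v| ≤ 7 * (|v| / (2 * Real.pi)) := by
        rw [← mul_div_assoc, le_div_iff₀ hpi]
        have := abs_nonneg v
        nlinarith
      linarith
    have h6 : (1 + |v|) ^ A ≤ 7 ^ A * (1 + ‖v / (2 * Real.pi)‖) ^ A := by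
      rw [← mul_pow]
      exact pow_le_pow_left₀ (by positivity) h3 A
    calc ‖KERs_k c v‖ * (1 + |v|) ^ A
        ≤ ‖KERs_g c (v / (2 * Real.pi))‖ * (7 ^ A * (1 + ‖v / (2 * Real.pi)‖) ^ A) :=
          mul_le_mul h2 h6 (by positivity) (norm_nonneg _)
      _ = 7 ^ A * ((1 + ‖v / (2 * Real.pi)‖) ^ A * ‖KERs_g c (v / (2 * Real.pi))‖) := by ring
      _ ≤ 7 ^ A * C0 := mul_le_mul_of_nonneg_left h1 (by positivity)
  · intro ξ
    have h1 : (fun v : ℝ => KERs_k c v * cexp (I * ((v * ξ : ℝ) : ℂ))) =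
        fun v : ℝ => (fun w : ℝ => KERs_g c w / (2 * Real.pi : ℝ) *
          cexp (((2 * Real.pi * (w * ξ) : ℝ) : ℂ) * I)) (v / (2 * Real.pi)) := by
      funext v
      simp only [KERs_k]
      congr 2
      rw [mul_comm I]
      congr 2
      field_simp
    rw [h1, MeasureTheory.Measure.integral_comp_div (fun w : ℝ => KERs_g c w / (2 * Real.pi : ℝ) *
      cexp (((2 * Real.pi * (w * ξ) : ℝ) : ℂ) * I)) (2 * Real.pi), abs_of_pos hpi, KERs_inv,
      ← integral_smul]
    refine integral_congr_ae (Filter.Eventually.of_forall fun w => ?_)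
    simp only [Complex.real_smul]
    field_simp
  · intro v
    have hcj : ∀ w : ℝ, KERs_g c (-w) = (starRingEnd ℂ) (KERs_g c w) := by
      intro w
      rw [KERs_g_eq, KERs_g_eq, ← integral_conj]
      refine integral_congr_ae (Filter.Eventually.of_forall fun x => ?_)
      simp only [map_mul, Complex.conj_ofReal, ← Complex.exp_conj, Complex.conj_I]
      congr 2
      push_cast
      ring
    have h1 : (starRingEnd ℂ) (KERs_g c (v / (2 * Real.pi)) / ((2 * Real.pi : ℝ) : ℂ)) =
        (starRingEnd ℂ) (KERs_g c (v / (2 * Real.pi))) / ((2 * Real.pi : ℝ) : ℂ) := by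
      rw [map_div₀, Complex.conj_ofReal]
    unfold KERs_k
    rw [h1, ← hcj, neg_div]
  · intro ξ hξ
    exact hzero ξ (by linarith)
  · intro ξ hξ
    rw [abs_le] at hξ
    have h1 : KERs_psi c ξ = Real.smoothTransition (c * ξ + 1 / 2) := by
      unfold KERs_psi
      rw [Real.smoothTransition.one_of_one_le (x := 3 - ξ) (by linarith),
        Real.smoothTransition.one_of_one_le (x := 3 + ξ) (by linarith), mul_one, mul_one]
    have h2 : KERs_psi c (-ξ) = Real.smoothTransition (1 - (c * ξ + 1 / 2)) := by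
      unfold KERs_psi
      rw [Real.smoothTransition.one_of_one_le (x := 3 - -ξ) (by linarith),
        Real.smoothTransition.one_of_one_le (x := 3 + -ξ) (by linarith), mul_one, mul_one]
      congr 1
      ring
    rw [h1, h2, KERs_symm]

end

end HZS
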