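import Pool.Agent.Work.MP_c51bc2_nt_s.Interface
import Pool.Agent.Work.MP_c51bc2_nt.B_LBF

/-!
# MP_c51bc2_nt: the lower bound for the first moment on `[T, T+H]`
-/

open Finset Complex MeasureTheory

namespace HZS

/-- one term of the sum over the blocks -/
theorem LBFs_term (hZ : Stmt_ZC) {X lam : ℕ → ℝ} {R j : ℕ} {T H A B0 μ : ℝ} (hH : 0 < H)
    (hμ : 0 < μ) (hl : 1 ≤ lam j)
    (hA : ∫ t in T..(T + H), |Z t| ^ 2 * ‖MM X lam (range R) t‖ ^ 2 ≤ A)
    (hB : ∫ t in T..(T + H), ‖NN X lam (range R) t‖ ^ 2 * ‖PP X j t‖ ^ (2 * mm lam j) ≤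
      B0 * Real.exp (lam j / 2) * (((mm lam j).factorial : ℝ) * (2 * lam j) ^ (mm lam j)))
    (hB0 : 0 ≤ B0) :
    ∫ t in T..(T + H), |Z t| * (‖MM X lam (range R) t‖ * ‖NN X lam (range R) t‖ *
      (5 * ‖PP X j t‖ / (KK lam j : ℝ)) ^ (mm lam j)) ≤
        μ / 2 * A + 1 / (2 * μ) * (B0 * Real.exp (-(2 * lam j))) := by
  have cZ : Continuous Z := hZ
  have cM := LBF_MM_cont X lam (range R)
  have cN := LBF_NN_cont X lam (range R)
  have cP := LBF_PP_cont X j
  set m := mm lam j with hm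
  set K : ℝ := (KK lam j : ℝ) with hK
  have hK0 : 0 < K := by
    have : 50 * lam j ≤ K := Nat.le_ceil _
    linarith
  set F : ℝ → ℝ := fun t => |Z t| ^ 2 * ‖MM X lam (range R) t‖ ^ 2 with hF
  set G : ℝ → ℝ := fun t => ‖NN X lam (range R) t‖ ^ 2 * ‖PP X j t‖ ^ (2 * m) with hG
  have cF : Continuous F := by rw [hF]; fun_prop
  have cG : Continuous G := by rw [hG]; fun_prop
  have hpt : ∀ t, |Z t| * (‖MM X lam (range R) t‖ * ‖NN X lam (range R) t‖ *
      (5 * ‖PP X j t‖ / K) ^ m) ≤ μ / 2 * F t + 1 / (2 * μ) * ((25 / K ^ 2) ^ m * G t) := by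
    intro t
    set x := |Z t| * ‖MM X lam (range R) t‖ with hx
    set y := ‖NN X lam (range R) t‖ * (5 * ‖PP X j t‖ / K) ^ m with hy
    have e1 : |Z t| * (‖MM X lam (range R) t‖ * ‖NN X lam (range R) t‖ *
        (5 * ‖PP X j t‖ / K) ^ m) = x * y := by rw [hx, hy]; ring
    have e2 : F t = x ^ 2 := by rw [hF, hx]; ring
    have e3 : (25 / K ^ 2) ^ m * G t = y ^ 2 := by
      have e4 : (5 * ‖PP X j t‖ / K) ^ 2 = (25 / K ^ 2) * ‖PP X j t‖ ^ 2 := by
        rw [div_pow, mul_pow]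
        ring
      have e5 : ((5 * ‖PP X j t‖ / K) ^ m) ^ 2 = (25 / K ^ 2) ^ m * ‖PP X j t‖ ^ (2 * m) := by
        rw [← pow_mul, mul_comm m 2, pow_mul, e4, mul_pow, ← pow_mul]
      simp only [hG]
      rw [hy, mul_pow ‖NN X lam (range R) t‖, e5]
      ring
    rw [e1, e2, e3]
    have h1 := sq_nonneg (μ * x - y)
    have h2 : μ / 2 * x ^ 2 + 1 / (2 * μ) * y ^ 2 - x * y = (μ * x - y) ^ 2 / (2 * μ) := by
      field_simp
      ring
    have h3 : 0 ≤ (μ * x - y) ^ 2 / (2 * μ) := by positivity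
    linarith
  have hi1 : IntervalIntegrable F volume T (T + H) := cF.intervalIntegrable _ _
  have hi2 : IntervalIntegrable G volume T (T + H) := cG.intervalIntegrable _ _
  have hle : T ≤ T + H := by linarith
  calc ∫ t in T..(T + H), |Z t| * (‖MM X lam (range R) t‖ * ‖NN X lam (range R) t‖ *
        (5 * ‖PP X j t‖ / K) ^ m)
      ≤ ∫ t in T..(T + H), (μ / 2 * F t + 1 / (2 * μ) * ((25 / K ^ 2) ^ m * G t)) := by
        apply intervalIntegral.integral_mono_on hle
        · apply Continuous.intervalIntegrable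
          fun_prop
        · apply Continuous.intervalIntegrable
          fun_prop
        · intro t _
          exact hpt t
    _ = μ / 2 * (∫ t in T..(T + H), F t) +
          1 / (2 * μ) * ((25 / K ^ 2) ^ m * ∫ t in T..(T + H), G t) := by
        rw [intervalIntegral.integral_add, intervalIntegral.integral_const_mul,
          intervalIntegral.integral_const_mul, intervalIntegral.integral_const_mul]
        · exact hi1.const_mul _
        · exact (hi2.const_mul _).const_mul _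
    _ ≤ μ / 2 * A + 1 / (2 * μ) * (B0 * Real.exp (-(2 * lam j))) := by
        have h4 : (25 / K ^ 2) ^ m * ∫ t in T..(T + H), G t ≤ B0 * Real.exp (-(2 * lam j)) := by
          calc (25 / K ^ 2) ^ m * ∫ t in T..(T + H), G t
              ≤ (25 / K ^ 2) ^ m * (B0 * Real.exp (lam j / 2) *
                ((m.factorial : ℝ) * (2 * lam j) ^ m)) :=
                mul_le_mul_of_nonneg_left hB (by positivity)
            _ = B0 * (Real.exp (lam j / 2) * ((m.factorial : ℝ) * (2 * lam j) ^ m) *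
                (25 / K ^ 2) ^ m) := by ring
            _ ≤ B0 * Real.exp (-(2 * lam j)) :=
                mul_le_mul_of_nonneg_left (LBF_q (lam j) hl) hB0
        have h5 : 0 ≤ 1 / (2 * μ) := by positivity
        have h6 : 0 ≤ μ / 2 := by positivity
        exact add_le_add (mul_le_mul_of_nonneg_left hA h6) (mul_le_mul_of_nonneg_left h4 h5)

/-- the upper bound for the twisted integral -/
theorem LBFs_upper (h5 : Stmt_TU) (h8 : Stmt_RZ) (h9 : Stmt_PHS) (h10 : Stmt_ZC)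
    {L T H A B0 w : ℝ} {R : ℕ} {X lam : ℕ → ℝ} (hc : IsChain L R X lam) (hH : 0 < H) (hw : 0 < w)
    (hA : ∫ t in T..(T + H), |Z t| ^ 2 * ‖MM X lam (range R) t‖ ^ 2 ≤ A)
    (hB : ∀ j < R, ∫ t in T..(T + H), ‖NN X lam (range R) t‖ ^ 2 * ‖PP X j t‖ ^ (2 * mm lam j) ≤
      B0 * Real.exp (lam j / 2) * (((mm lam j).factorial : ℝ) * (2 * lam j) ^ (mm lam j)))
    (hB0 : 0 ≤ B0) (hA0 : 0 ≤ A) (hs : ∑ j ∈ range R, Real.exp (-lam j) ≤ 1 / w ^ 4) :
    ‖∫ t in T..(T + H), riemannZeta (1 / 2 + I * t) * MM X lam (range R) t *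
        (starRingEnd ℂ) (NN X lam (range R) t)‖ ≤
      2 * (∫ t in T..(T + H), |Z t|) + (A / (2 * w ^ 2) + w ^ 2 / 2 * B0) * (1 / w ^ 4) := by
  have cZ : Continuous Z := h10
  have cM := LBF_MM_cont X lam (range R)
  have cN := LBF_NN_cont X lam (range R)
  have hle : T ≤ T + H := by linarith
  have e1 : ‖∫ t in T..(T + H), riemannZeta (1 / 2 + I * t) * MM X lam (range R) t *
        (starRingEnd ℂ) (NN X lam (range R) t)‖ ≤
      ∫ t in T..(T + H), |Z t| * (‖MM X lam (range R) t‖ * ‖NN X lam (range R) t‖) := by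
    refine le_trans (intervalIntegral.norm_integral_le_integral_norm hle) (le_of_eq ?_)
    apply intervalIntegral.integral_congr
    intro t _
    simp only [norm_mul, RCLike.norm_conj, LBF_zeta h8 h9 t]
    ring
  have hq : ∀ j, Continuous fun t => |Z t| * (‖MM X lam (range R) t‖ * ‖NN X lam (range R) t‖ *
      (5 * ‖PP X j t‖ / (KK lam j : ℝ)) ^ (mm lam j)) := by
    intro j
    have cP := LBF_PP_cont X j
    fun_prop
  have e2 : ∫ t in T..(T + H), |Z t| * (‖MM X lam (range R) t‖ * ‖NN X lam (range R) t‖) ≤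
      ∫ t in T..(T + H), (2 * |Z t| + ∑ j ∈ range R, |Z t| * (‖MM X lam (range R) t‖ *
        ‖NN X lam (range R) t‖ * (5 * ‖PP X j t‖ / (KK lam j : ℝ)) ^ (mm lam j))) := by
    apply intervalIntegral.integral_mono_on hle
    · apply Continuous.intervalIntegrable
      fun_prop
    · apply Continuous.intervalIntegrable
      apply Continuous.add
      · fun_prop
      · apply continuous_finsetSum
        intro j _
        exact hq j
    · intro t _
      have h := h5 L R X lam hc t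
      have h' := mul_le_mul_of_nonneg_left h (abs_nonneg (Z t))
      rw [mul_add, Finset.mul_sum] at h'
      linarith
  have e3 : ∫ t in T..(T + H), (2 * |Z t| + ∑ j ∈ range R, |Z t| * (‖MM X lam (range R) t‖ *
        ‖NN X lam (range R) t‖ * (5 * ‖PP X j t‖ / (KK lam j : ℝ)) ^ (mm lam j))) =
      2 * (∫ t in T..(T + H), |Z t|) + ∑ j ∈ range R, ∫ t in T..(T + H),
        |Z t| * (‖MM X lam (range R) t‖ * ‖NN X lam (range R) t‖ *
          (5 * ‖PP X j t‖ / (KK lam j : ℝ)) ^ (mm lam j)) := by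
    rw [intervalIntegral.integral_add, intervalIntegral.integral_const_mul,
      intervalIntegral.integral_finsetSum]
    · intro j _
      exact (hq j).intervalIntegrable _ _
    · apply Continuous.intervalIntegrable
      fun_prop
    · apply Continuous.intervalIntegrable
      apply continuous_finsetSum
      intro j _
      exact hq j
  have e4 : ∑ j ∈ range R, ∫ t in T..(T + H),
        |Z t| * (‖MM X lam (range R) t‖ * ‖NN X lam (range R) t‖ *
          (5 * ‖PP X j t‖ / (KK lam j : ℝ)) ^ (mm lam j)) ≤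
      ∑ j ∈ range R, (A / (2 * w ^ 2) + w ^ 2 / 2 * B0) * Real.exp (-lam j) := by
    apply Finset.sum_le_sum
    intro j hj
    have hj' := Finset.mem_range.1 hj
    have hμ : 0 < Real.exp (-lam j) / w ^ 2 := by positivity
    refine le_trans (LBFs_term h10 hH hμ (hc.lam1 j hj') hA (hB j hj') hB0) (le_of_eq ?_)
    have e5 : Real.exp (-(2 * lam j)) = Real.exp (-lam j) * Real.exp (-lam j) := by
      rw [← Real.exp_add]
      congr 1
      ring
    rw [e5]
    have hE : Real.exp (-lam j) ≠ 0 := (Real.exp_pos _).ne'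
    field_simp
  rw [← Finset.mul_sum] at e4
  have e6 : (A / (2 * w ^ 2) + w ^ 2 / 2 * B0) * ∑ j ∈ range R, Real.exp (-lam j) ≤
      (A / (2 * w ^ 2) + w ^ 2 / 2 * B0) * (1 / w ^ 4) :=
    mul_le_mul_of_nonneg_left hs (by positivity)
  linarith

theorem LBFs_floor (T δ : ℝ) (_hδ : 0 < δ) (hT0 : 0 < T) (h3 : 2 ≤ T ^ (δ / 3)) :
    T ^ (2 * δ / 3) ≤ (⌊T ^ δ⌋₊ : ℝ) := by
  set y := T ^ (δ / 3) with hy
  have h1 : T ^ (2 * δ / 3) = y ^ 2 := by
    rw [hy, ← Real.rpow_natCast, ← Real.rpow_mul hT0.le]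
    congr 1
    push_cast
    ring
  have h2 : T ^ δ = y ^ 3 := by
    rw [hy, ← Real.rpow_natCast, ← Real.rpow_mul hT0.le]
    congr 1
    push_cast
    ring
  have h6 := Nat.lt_floor_add_one (y ^ 3)
  rw [h1, h2]
  nlinarith [sq_nonneg y, mul_nonneg (sq_nonneg y) (sub_nonneg.2 h3)]

theorem LBFs_len {δ L : ℝ} {R : ℕ} {X lam : ℕ → ℝ} (hδ : 0 < δ) (hL : 0 ≤ L)
    (hc : IsChain L R X lam) (hs : Sh δ L R X lam)
    (hX : ∀ j < R, 0 ≤ Real.log (X (j + 1))) :
    ∑ i ∈ range R, (KK lam i : ℝ) * Real.log (X (i + 1)) ≤ L * (2 * δ / 3) := by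
  calc ∑ i ∈ range R, (KK lam i : ℝ) * Real.log (X (i + 1))
      ≤ ∑ i ∈ range R, 51 * (lam i * Real.log (X (i + 1))) := by
        apply Finset.sum_le_sum
        intro i hi
        have hi' := Finset.mem_range.1 hi
        have h1 := hc.lam1 i hi'
        have h2 : (KK lam i : ℝ) ≤ 51 * lam i := by
          have := Nat.ceil_lt_add_one (show 0 ≤ 50 * lam i by linarith)
          unfold KK
          linarith
        calc (KK lam i : ℝ) * Real.log (X (i + 1)) ≤ 51 * lam i * Real.log (X (i + 1)) :=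
              mul_le_mul_of_nonneg_right h2 (hX i hi')
          _ = _ := by ring
    _ = 51 * ∑ i ∈ range R, lam i * Real.log (X (i + 1)) := by rw [Finset.mul_sum]
    _ ≤ 51 * (δ * L / 100) := mul_le_mul_of_nonneg_left hs (by norm_num)
    _ ≤ L * (2 * δ / 3) := by
        have : 0 ≤ δ * L := by positivity
        linarith

theorem stmt_LBFs (h1 : Stmt_TW0s) (h2 : Stmt_MO2s) (h3 : Stmt_TFs) (h4 : Stmt_DL) (h5 : Stmt_TU)
    (_h6 : Stmt_CO) (h7 : Stmt_PARs) (h8 : Stmt_RZ) (h9 : Stmt_PHS) (h10 : Stmt_ZC) :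
    Stmt_LBFs := by
  intro δ hδ hδ'
  obtain ⟨C1, T1, hC1, -, tw⟩ := h1 δ hδ hδ'
  obtain ⟨C2, T2, hC2, -, mo2⟩ := h2
  obtain ⟨C3, T3, hC3, -, tf⟩ := h3 δ hδ hδ'
  obtain ⟨c4, hc4, dl⟩ := h4
  obtain ⟨W0, L0, hW0, hL0, par⟩ := h7 δ hδ hδ'
  set Cs := (C1 + C2) / 2 with hCs
  have hCs0 : 0 < Cs := by positivity
  set w := max W0 (4 * Cs / c4 + 1) with hw
  have hw1 : W0 ≤ w := le_max_left _ _
  have hw8 : 8 ≤ w := le_trans hW0 hw1
  have hw0 : 0 < w := by linarith
  have hw2 : 4 * Cs / c4 ≤ w := by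
    have := le_max_right W0 (4 * Cs / c4 + 1)
    linarith
  have hw4 : w ≤ w ^ 4 := by
    calc w = w ^ 1 := (pow_one w).symm
      _ ≤ w ^ 4 := pow_le_pow_right₀ (by linarith) (by norm_num)
  have hev : ∀ᶠ T : ℝ in Filter.atTop, (T1 ≤ T ∧ T2 ≤ T ∧ T3 ≤ T ∧ 1 ≤ T) ∧
      (L0 ≤ Real.log T ∧ 5 * w ^ 4 ≤ Real.log T ∧ 1 ≤ Real.log T) ∧
        (4 * C3 * w / c4 ≤ T ^ δ ∧ 2 ≤ T ^ (δ / 3)) := by
    refine ((Filter.eventually_ge_atTop T1).and ((Filter.eventually_ge_atTop T2).and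
      ((Filter.eventually_ge_atTop T3).and (Filter.eventually_ge_atTop _)))).and
      (((Real.tendsto_log_atTop.eventually_ge_atTop L0).and
        ((Real.tendsto_log_atTop.eventually_ge_atTop _).and
          (Real.tendsto_log_atTop.eventually_ge_atTop 1))).and
        (((tendsto_rpow_atTop hδ).eventually_ge_atTop _).and
          ((tendsto_rpow_atTop (by positivity)).eventually_ge_atTop _)))
  obtain ⟨T0, hT0⟩ := Filter.eventually_atTop.1 hev
  refine ⟨c4 / (4 * w), max T0 2, by positivity, lt_of_lt_of_le one_lt_two (le_max_right _ _), ?_⟩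
  intro T H hT hadm
  obtain ⟨⟨g1, g2, g3, g4⟩, ⟨g5, g6, g7⟩, g8, g9⟩ := hT0 T (le_trans (le_max_left _ _) hT)
  have hTp : 0 < T := lt_of_lt_of_le (by norm_num) g4
  have hH1 : T ^ (1 / 2 + 4 * δ) ≤ H := hadm.1
  have hHp : 0 < H := lt_of_lt_of_le (Real.rpow_pos_of_pos hTp _) hH1
  have hHh : T ^ (1 / 2 : ℝ) ≤ H :=
    le_trans (Real.rpow_le_rpow_of_exponent_le g4 (by linarith)) hH1
  set L := Real.log T with hL
  have hLp : 0 < L := by linarith
  set a := L ^ (1 / 4 : ℝ) with ha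
  have hap : 0 < a := Real.rpow_pos_of_pos hLp _
  have ha4 : a ^ 4 = L := by
    rw [ha, ← Real.rpow_natCast, ← Real.rpow_mul hLp.le]
    norm_num
  have ha1 : 1 ≤ a := Real.one_le_rpow g7 (by norm_num)
  obtain ⟨R, X, lam, hc, hsh, hXR, hsum⟩ := par L (w ^ 4) g5 (le_trans hw1 hw4) (by linarith)
  have hlog : Real.log (X R) = (a / w) ^ 4 := by
    rw [hXR, Real.log_exp, div_pow, ha4]
  have haw : 0 < a / w := by positivity
  have hlog8 : Real.log (X R) ≤ L / 8 := by
    rw [hXR, Real.log_exp]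
    apply div_le_div_of_nonneg_left hLp.le (by norm_num)
    linarith
  have hA := tw T H R X lam g1 hadm hc hsh R le_rfl hlog8
  rw [hlog, LBF_rp2 _ haw] at hA
  have hB : ∀ j < R, ∫ t in T..(T + H), ‖NN X lam (range R) t‖ ^ 2 *
      ‖PP X j t‖ ^ (2 * mm lam j) ≤ (C2 * H * (a / w)) * Real.exp (lam j / 2) *
        (((mm lam j).factorial : ℝ) * (2 * lam j) ^ (mm lam j)) := by
    intro j hj
    have h := mo2 T H R X lam g2 hHh hc j hj
    rw [hlog, LBF_rp1 _ haw] at h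
    exact h
  have hup := LBFs_upper h5 h8 h9 h10 hc hHp hw0 hA hB (by positivity) (by positivity) hsum
  -- the lower bound
  set Y := ⌊T ^ δ⌋₊ with hY
  have hY1 : T ^ (2 * δ / 3) ≤ (Y : ℝ) := LBFs_floor T δ hδ hTp g9
  have hY2 : (Y : ℝ) ≤ T ^ δ := Nat.floor_le (by positivity)
  have hlen : Real.exp (∑ i ∈ range R, (KK lam i : ℝ) * Real.log (X (i + 1))) ≤ Y := by
    have h11 := LBFs_len hδ hLp.le hc hsh (fun j hj => Real.log_nonneg
      (by linarith [LBF_ge hc (show j + 1 ≤ R from hj)]))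
    refine le_trans (Real.exp_le_exp.2 h11) (le_trans (le_of_eq ?_) hY1)
    rw [Real.rpow_def_of_pos hTp]
  have htf := tf T H R X lam g3 hadm hc hsh Y hY1 hY2
  have hdl := dl L R X lam hc Y hlen
  rw [hlog, LBF_rp1 _ haw] at hdl
  set S : ℂ := ∑ n ∈ Icc 1 Y, cN X lam (range R) n * B (cM X lam (range R)) 0 n / (n : ℂ) with hS
  set Q : ℂ := ∫ t in T..(T + H), riemannZeta (1 / 2 + I * t) * MM X lam (range R) t *
        (starRingEnd ℂ) (NN X lam (range R) t) with hQ
  have hTS : H * (c4 * (a / w)) ≤ ‖(H : ℂ) * S‖ := by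
    calc H * (c4 * (a / w)) ≤ H * S.re := mul_le_mul_of_nonneg_left hdl hHp.le
      _ = ((H : ℂ) * S).re := by rw [Complex.re_ofReal_mul]
      _ ≤ ‖(H : ℂ) * S‖ := Complex.re_le_norm _
  have htri : ‖(H : ℂ) * S‖ ≤ ‖Q‖ + ‖Q - H * S‖ := by
    have h : (H : ℂ) * S = Q - (Q - H * S) := by ring
    calc ‖(H : ℂ) * S‖ = ‖Q - (Q - H * S)‖ := by rw [← h]
      _ ≤ _ := norm_sub_le _ _
  set I0 := ∫ t in T..(T + H), |Z t| with hI0
  have hmain : H * (c4 * (a / w)) ≤ 2 * I0 +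
      (C1 * H * L * (1 / (a / w) ^ 3) / (2 * w ^ 2) + w ^ 2 / 2 * (C2 * H * (a / w))) *
        (1 / w ^ 4) + C3 * T ^ (1 / 2 + 3 * δ) := by
    linarith
  have hsimp : (C1 * H * L * (1 / (a / w) ^ 3) / (2 * w ^ 2) + w ^ 2 / 2 * (C2 * H * (a / w))) *
        (1 / w ^ 4) = Cs * H * a / w ^ 3 := by
    rw [hCs, ← ha4]
    field_simp
  have hb1 : Cs * H * a / w ^ 3 ≤ c4 / 4 * (H * a / w) := by
    have h12 : 4 * Cs ≤ c4 * w := by
      have := (div_le_iff₀ hc4).1 hw2
      linarith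
    have h13 : 4 * Cs ≤ c4 * w ^ 2 := by
      have : c4 * w ≤ c4 * w ^ 2 := by
        apply mul_le_mul_of_nonneg_left _ hc4.le
        nlinarith
      linarith
    have h14 : c4 / 4 * (H * a / w) - Cs * H * a / w ^ 3 =
        (c4 * w ^ 2 - 4 * Cs) * (H * a) / (4 * w ^ 3) := by
      field_simp
    have h15 : 0 ≤ (c4 * w ^ 2 - 4 * Cs) * (H * a) / (4 * w ^ 3) := by
      apply div_nonneg (mul_nonneg (by linarith) (by positivity)) (by positivity)
    linarith
  have hb2 : C3 * T ^ (1 / 2 + 3 * δ) ≤ c4 / 4 * (H * a / w) := by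
    have h16 : T ^ (1 / 2 + 4 * δ) = T ^ (1 / 2 + 3 * δ) * T ^ δ := by
      rw [← Real.rpow_add hTp]
      congr 1
      ring
    have h17 : 4 * C3 * w ≤ c4 * T ^ δ := by
      have := (div_le_iff₀ hc4).1 g8
      linarith
    have h18 : 0 < T ^ (1 / 2 + 3 * δ) := Real.rpow_pos_of_pos hTp _
    have h19 : C3 * T ^ (1 / 2 + 3 * δ) ≤ c4 / 4 * (H / w) := by
      have h20 : c4 / 4 * (T ^ (1 / 2 + 4 * δ) / w) =
          T ^ (1 / 2 + 3 * δ) * (c4 * T ^ δ) / (4 * w) := by
        rw [h16]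
        field_simp
      have h20' : c4 / 4 * (T ^ (1 / 2 + 4 * δ) / w) ≤ c4 / 4 * (H / w) := by
        apply mul_le_mul_of_nonneg_left _ (by positivity)
        exact div_le_div_of_nonneg_right hH1 hw0.le
      refine le_trans ?_ h20'
      rw [h20, le_div_iff₀ (by positivity)]
      calc C3 * T ^ (1 / 2 + 3 * δ) * (4 * w) = T ^ (1 / 2 + 3 * δ) * (4 * C3 * w) := by ring
        _ ≤ T ^ (1 / 2 + 3 * δ) * (c4 * T ^ δ) := mul_le_mul_of_nonneg_left h17 h18.le
    have h21 : H / w ≤ H * a / w := by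
      apply div_le_div_of_nonneg_right _ hw0.le
      nlinarith
    exact le_trans h19 (mul_le_mul_of_nonneg_left h21 (by positivity))
  rw [hsimp] at hmain
  have hfin : c4 / (4 * w) * H * a ≤ I0 := by
    have h22 : H * (c4 * (a / w)) = c4 * (H * a / w) := by ring
    have h23 : c4 / (4 * w) * H * a = c4 / 4 * (H * a / w) := by
      field_simp
    rw [h23]
    rw [h22] at hmain
    linarith
  exact hfin

end HZS
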