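import Pool.Agent.Work.MP_c51bc2_nt.B_MAIN
import Pool.Agent.Work.MP_c51bc2_nt_s.Interface

open Finset Complex MeasureTheory

namespace HZS

open MAINx in
theorem stmt_MAINs (hTW : Stmt_TWs) (hMO : Stmt_MOs) (hTEL : Stmt_TEL) (hZC : Stmt_ZC) :
    Stmt_MAINs := by
  intro δ hδ hδ1
  obtain ⟨C1, T1, hC1, hT1, h1⟩ := hTW δ hδ hδ1
  obtain ⟨C2, T2, hC2, hT2, h2⟩ := hMO
  refine ⟨3 * Real.sqrt (C1 * C2), max T1 T2, by positivity, lt_max_of_lt_left hT1, ?_⟩
  intro T H h R X lam hT hAdm hc hSh hXR hh1 hh2 hh3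
  have hT1' : T1 ≤ T := le_trans (le_max_left _ _) hT
  have hT2' : T2 ≤ T := le_trans (le_max_right _ _) hT
  have hT0 : 0 < T := by linarith
  have hH12 : T ^ (1 / 2 : ℝ) ≤ H := by
    refine le_trans (Real.rpow_le_rpow_of_exponent_le (by linarith) (by linarith)) hAdm.1
  have hTpos : 0 < H := lt_of_lt_of_le (Real.rpow_pos_of_pos hT0 _) hH12
  have hTT : T ≤ T + H := by linarith
  have hlog : 0 < Real.log T := Real.log_pos (by linarith)
  have hh0 : 0 < h := lt_of_lt_of_le (div_pos one_pos hlog) hh1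
  have hlogR : Real.log (X R) = 1 / h := by rw [hXR, Real.log_exp]
  have hx := x_ge hc
  have hlogx : ∀ j ≤ R, 0 < Real.log (X j) := fun j hj => Real.log_pos (by have := hx j hj; linarith)
  have hlogmono : ∀ j ≤ R, Real.log (X j) ≤ 1 / h := by
    intro j hj
    rw [← hlogR]
    exact Real.log_le_log (by have := hx j hj; linarith) (x_mono hc hj le_rfl)
  have hcJ := cont_J hZC h
  have hA : ∀ j ≤ R, ∫ t in T..(T + H), (|J h t| * ‖MM X lam (range j) t‖) ^ 2 ≤
      C1 * H * h * Real.log (X j) ^ (-(3 / 4) : ℝ) := by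
    intro j hj
    have h3 := h1 T H R X lam hT1' hAdm hc hSh j hj h hh1 hh2 (by
      have := hlogmono j hj
      calc h * Real.log (X j) ≤ h * (1 / h) := mul_le_mul_of_nonneg_left this hh0.le
        _ = 1 := by field_simp) (le_trans (hlogmono j hj) hh3)
    simp_rw [mul_pow]
    exact h3
  -- the first term
  have hfirst : ∫ t in T..(T + H), (|J h t| * ‖MM X lam (range R) t‖) * ‖NN X lam (range R) t‖ ≤
      Real.sqrt (C1 * C2) * H * h ^ (3 / 4 : ℝ) := by
    have hAR := hA R le_rfl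
    have hBR := (h2 T H R X lam hT2' hH12 hc R le_rfl).1
    have hlR := hlogx R le_rfl
    refine le_trans (cs hTT (hcJ.abs.mul (cont_MM X lam (range R)).norm)
      (cont_NN X lam (range R)).norm (by positivity) (by positivity) hAR hBR) ?_
    rw [hlogR]
    apply le_of_eq
    rw [Real.sqrt_eq_iff_mul_self_eq (by positivity) (by positivity)]
    have e1 : (1 / h) ^ (-(3 / 4) : ℝ) = h ^ (3 / 4 : ℝ) := by
      rw [one_div, Real.inv_rpow hh0.le, ← Real.rpow_neg hh0.le, neg_neg]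
    have e2 : (1 / h) ^ (1 / 4 : ℝ) = h ^ (-(1 / 4) : ℝ) := by
      rw [one_div, Real.inv_rpow hh0.le, ← Real.rpow_neg hh0.le]
    rw [e1, e2]
    have e3 : h ^ (3 / 4 : ℝ) * h ^ (3 / 4 : ℝ) = h * h ^ (3 / 4 : ℝ) * h ^ (-(1 / 4) : ℝ) := by
      rw [← Real.rpow_add hh0]
      nth_rewrite 2 [← Real.rpow_one h]
      rw [← Real.rpow_add hh0, ← Real.rpow_add hh0]
      norm_num
    symm
    calc Real.sqrt (C1 * C2) * H * h ^ (3 / 4 : ℝ) * (Real.sqrt (C1 * C2) * H * h ^ (3 / 4 : ℝ)) =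
        (Real.sqrt (C1 * C2) * Real.sqrt (C1 * C2)) * H ^ 2 *
          (h ^ (3 / 4 : ℝ) * h ^ (3 / 4 : ℝ)) := by ring
      _ = (C1 * C2) * H ^ 2 * (h * h ^ (3 / 4 : ℝ) * h ^ (-(1 / 4) : ℝ)) := by
        rw [Real.mul_self_sqrt (by positivity), e3]
      _ = _ := by ring
  -- the other terms
  have hother : ∀ j ∈ range R, ∫ t in T..(T + H), (|J h t| * ‖MM X lam (range j) t‖) *
      (‖NN X lam (range j) t‖ * (5 * ‖PP X j t‖ / (KK lam j : ℝ)) ^ (mm lam j)) ≤
      Real.sqrt (C1 * C2) * H * h ^ (3 / 4 : ℝ) * Real.exp (-lam j) := by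
    intro j hj
    have hj' := Finset.mem_range.1 hj
    have hAj := hA j hj'.le
    have hBj := (h2 T H R X lam hT2' hH12 hc j hj'.le).2 hj'
    have hlj := hlogx j hj'.le
    have hl1 := hc.lam1 j hj'
    have hw := weight hl1
    set w : ℝ := ((mm lam j).factorial : ℝ) * lam j ^ (mm lam j) with hwdef
    have hB2 : ∫ t in T..(T + H), (‖NN X lam (range j) t‖ *
        (5 * ‖PP X j t‖ / (KK lam j : ℝ)) ^ (mm lam j)) ^ 2 ≤
        C2 * H * Real.log (X j) ^ (1 / 4 : ℝ) * Real.exp (-(5 / 2) * lam j) := by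
      have e1 : ∀ t, (‖NN X lam (range j) t‖ * (5 * ‖PP X j t‖ / (KK lam j : ℝ)) ^ (mm lam j)) ^ 2 =
          ((5 / (KK lam j : ℝ)) ^ 2) ^ (mm lam j) *
            (‖NN X lam (range j) t‖ ^ 2 * ‖PP X j t‖ ^ (2 * mm lam j)) := by
        intro t
        rw [mul_div_right_comm, mul_pow, mul_pow, mul_pow, ← pow_mul, ← pow_mul, ← pow_mul]
        rw [mul_comm (mm lam j) 2]
        ring
      simp_rw [e1]
      rw [intervalIntegral.integral_const_mul]
      calc ((5 / (KK lam j : ℝ)) ^ 2) ^ (mm lam j) * (∫ t in T..(T + H),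
            ‖NN X lam (range j) t‖ ^ 2 * ‖PP X j t‖ ^ (2 * mm lam j)) ≤
          ((5 / (KK lam j : ℝ)) ^ 2) ^ (mm lam j) * (C2 * H * Real.log (X j) ^ (1 / 4 : ℝ) * w) :=
            mul_le_mul_of_nonneg_left hBj (by positivity)
        _ = C2 * H * Real.log (X j) ^ (1 / 4 : ℝ) * (w * ((5 / (KK lam j : ℝ)) ^ 2) ^ (mm lam j)) := by
            ring
        _ ≤ _ := mul_le_mul_of_nonneg_left hw (by positivity)
    have hcs := cs hTT (hcJ.abs.mul (cont_MM X lam (range j)).norm)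
      ((cont_NN X lam (range j)).norm.mul
        (((continuous_const.mul (cont_PP X j).norm).div_const _).pow (mm lam j)))
      (by positivity) (by positivity) hAj hB2
    refine le_trans hcs ?_
    apply Real.sqrt_le_iff.2
    refine ⟨by positivity, ?_⟩
    -- (log X_j)^{-1/2} ≤ h^{1/2} e^{lam/2}
    have htop := hc.top j hj'
    rw [hlogR] at htop
    have h3 : Real.log (X j) ^ (-(1 / 2) : ℝ) ≤ h ^ (1 / 2 : ℝ) * Real.exp (lam j / 2) := by
      have h4 : h⁻¹ * Real.exp (-lam j) ≤ Real.log (X j) := by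
        rw [Real.exp_neg]
        rw [one_div] at htop
        have : h⁻¹ * (Real.exp (lam j))⁻¹ ≤ (Real.exp (lam j) * Real.log (X j)) * (Real.exp (lam j))⁻¹ :=
          mul_le_mul_of_nonneg_right htop (by positivity)
        calc h⁻¹ * (Real.exp (lam j))⁻¹ ≤ _ := this
          _ = Real.log (X j) := by field_simp
      have h5 : Real.log (X j) ^ (-(1 / 2) : ℝ) ≤ (h⁻¹ * Real.exp (-lam j)) ^ (-(1 / 2) : ℝ) :=
        Real.rpow_le_rpow_of_nonpos (by positivity) h4 (by norm_num)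
      refine le_trans h5 (le_of_eq ?_)
      rw [Real.mul_rpow (by positivity) (Real.exp_pos _).le, Real.inv_rpow hh0.le,
        ← Real.rpow_neg hh0.le, neg_neg, ← Real.exp_mul]
      congr 2
      ring
    have e2 : Real.log (X j) ^ (-(3 / 4) : ℝ) * Real.log (X j) ^ (1 / 4 : ℝ) =
        Real.log (X j) ^ (-(1 / 2) : ℝ) := by
      rw [← Real.rpow_add hlj]; norm_num
    have e3 : h * h ^ (1 / 2 : ℝ) = (h ^ (3 / 4 : ℝ)) ^ 2 := by
      rw [← Real.rpow_natCast, ← Real.rpow_mul hh0.le]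
      nth_rewrite 1 [← Real.rpow_one h]
      rw [← Real.rpow_add hh0]
      norm_num
    calc C1 * H * h * Real.log (X j) ^ (-(3 / 4) : ℝ) *
          (C2 * H * Real.log (X j) ^ (1 / 4 : ℝ) * Real.exp (-(5 / 2) * lam j)) =
        C1 * C2 * H ^ 2 * h * (Real.log (X j) ^ (-(3 / 4) : ℝ) * Real.log (X j) ^ (1 / 4 : ℝ)) *
          Real.exp (-(5 / 2) * lam j) := by ring
      _ = C1 * C2 * H ^ 2 * h * Real.log (X j) ^ (-(1 / 2) : ℝ) * Real.exp (-(5 / 2) * lam j) := by
        rw [e2]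
      _ ≤ C1 * C2 * H ^ 2 * h * (h ^ (1 / 2 : ℝ) * Real.exp (lam j / 2)) *
          Real.exp (-(5 / 2) * lam j) := by
        apply mul_le_mul_of_nonneg_right _ (Real.exp_pos _).le
        exact mul_le_mul_of_nonneg_left h3 (by positivity)
      _ = C1 * C2 * H ^ 2 * (h * h ^ (1 / 2 : ℝ)) *
          (Real.exp (lam j / 2) * Real.exp (-(5 / 2) * lam j)) := by ring
      _ = C1 * C2 * H ^ 2 * (h ^ (3 / 4 : ℝ)) ^ 2 * (Real.exp (-lam j)) ^ 2 := by
        rw [e3, ← Real.exp_add, ← Real.exp_nat_mul]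
        congr 2
        push_cast
        ring
      _ = (Real.sqrt (C1 * C2) * H * h ^ (3 / 4 : ℝ) * Real.exp (-lam j)) ^ 2 := by
        rw [mul_pow, mul_pow, mul_pow, Real.sq_sqrt (by positivity)]
  -- assemble
  have hcR : Continuous (fun t => (|J h t| * ‖MM X lam (range R) t‖) * ‖NN X lam (range R) t‖) :=
    (hcJ.abs.mul (cont_MM X lam (range R)).norm).mul (cont_NN X lam (range R)).norm
  have hcj : ∀ j ∈ range R, Continuous (fun t => (|J h t| * ‖MM X lam (range j) t‖) *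
      (‖NN X lam (range j) t‖ * (5 * ‖PP X j t‖ / (KK lam j : ℝ)) ^ (mm lam j))) := fun j _ =>
    (hcJ.abs.mul (cont_MM X lam (range j)).norm).mul ((cont_NN X lam (range j)).norm.mul
        (((continuous_const.mul (cont_PP X j).norm).div_const _).pow (mm lam j)))
  have hcs : Continuous (fun t => ∑ j ∈ range R, (|J h t| * ‖MM X lam (range j) t‖) *
      (‖NN X lam (range j) t‖ * (5 * ‖PP X j t‖ / (KK lam j : ℝ)) ^ (mm lam j))) :=
    continuous_finsetSum _ hcj
  have hpt : ∀ t ∈ Set.Icc T (T + H), |J h t| ≤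
      2 * ((|J h t| * ‖MM X lam (range R) t‖) * ‖NN X lam (range R) t‖) +
      2 * ∑ j ∈ range R, (|J h t| * ‖MM X lam (range j) t‖) *
      (‖NN X lam (range j) t‖ * (5 * ‖PP X j t‖ / (KK lam j : ℝ)) ^ (mm lam j)) := by
    intro t _
    have h3 := hTEL (Real.log T) R X lam hc t
    have h4 := mul_le_mul_of_nonneg_left h3 (abs_nonneg (J h t))
    rw [mul_one] at h4
    refine le_trans h4 (le_of_eq ?_)
    rw [mul_add, mul_left_comm, mul_left_comm (|J h t|) 2, Finset.mul_sum]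
    congr 1
    · ring
    · congr 1
      apply Finset.sum_congr rfl
      intro j _
      ring
  have hint : ∫ t in T..(T + H), |J h t| ≤ ∫ t in T..(T + H),
      (2 * ((|J h t| * ‖MM X lam (range R) t‖) * ‖NN X lam (range R) t‖) +
      2 * ∑ j ∈ range R, (|J h t| * ‖MM X lam (range j) t‖) *
      (‖NN X lam (range j) t‖ * (5 * ‖PP X j t‖ / (KK lam j : ℝ)) ^ (mm lam j))) := by
    apply intervalIntegral.integral_mono_on hTT
    · exact hcJ.abs.intervalIntegrable _ _
    · exact ((continuous_const.mul hcR).add (continuous_const.mul hcs)).intervalIntegrable _ _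
    · exact hpt
  have hi1 : IntervalIntegrable (fun t => 2 * ((|J h t| * ‖MM X lam (range R) t‖) *
      ‖NN X lam (range R) t‖)) volume T (T + H) :=
    (continuous_const.mul hcR).intervalIntegrable _ _
  have hi2 : IntervalIntegrable (fun t => 2 * ∑ j ∈ range R, (|J h t| * ‖MM X lam (range j) t‖) *
      (‖NN X lam (range j) t‖ * (5 * ‖PP X j t‖ / (KK lam j : ℝ)) ^ (mm lam j))) volume T (T + H) :=
    (continuous_const.mul hcs).intervalIntegrable _ _
  rw [intervalIntegral.integral_add hi1 hi2, intervalIntegral.integral_const_mul,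
    intervalIntegral.integral_const_mul, intervalIntegral.integral_finsetSum
      (fun j hj => (hcj j hj).intervalIntegrable _ _)] at hint
  have hsum := Finset.sum_le_sum hother
  rw [← Finset.mul_sum] at hsum
  have h8 := hc.sum
  have hS0 : 0 ≤ Real.sqrt (C1 * C2) * H * h ^ (3 / 4 : ℝ) := by positivity
  have h9 := mul_le_mul_of_nonneg_left h8 hS0
  calc ∫ t in T..(T + H), |J h t| ≤ _ := hint
    _ ≤ 2 * (Real.sqrt (C1 * C2) * H * h ^ (3 / 4 : ℝ)) +
        2 * (Real.sqrt (C1 * C2) * H * h ^ (3 / 4 : ℝ) * (1 / 8)) := by linarith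
    _ ≤ 3 * Real.sqrt (C1 * C2) * H * h ^ (3 / 4 : ℝ) := by nlinarith

end HZS
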