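import Pool.Agent.Work.MP_c51bc2_nt_s.Interface
import Pool.Agent.Work.MP_c51bc2_nt.B_MO

/-!
# Block MOs: the moments of `N` and `P` on `[T, T+H]`
-/

open Finset Complex MeasureTheory

namespace HZS

/-- the general moment -/
theorem MO_gen_s (hCO : Stmt_CO) (hSKE : Stmt_SKE) (hMVP : Stmt_MVPs) (hMER : Stmt_MER) :
    ∃ C T0 : ℝ, 0 < C ∧ 1 < T0 ∧ ∀ (T H : ℝ) (R : ℕ) (X lam : ℕ → ℝ), T0 ≤ T →
    T ^ (1 / 2 : ℝ) ≤ H → IsChain (Real.log T) R X lam → ∀ r ≤ R, ∀ S ⊆ range r, ∀ (E : Finset ℕ) (e : ℕ → ℂ),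
    (∀ y ∈ E, y ≠ 0 ∧ (∀ p ∈ y.primeFactors, ∀ i ∈ S, p ∉ PB X i) ∧
      Real.log y + ∑ i ∈ S, (KK lam i : ℝ) * Real.log (X (i + 1)) ≤ Real.log T / 30) →
    ∫ t in T..(T + H), ‖NN X lam S t‖ ^ 2 * ‖∑ y ∈ E, e y * mo y t‖ ^ 2 ≤
      C * H * Real.log (X r) ^ (1 / 4 : ℝ) * ∑ y ∈ E, ‖e y‖ ^ 2 / (y : ℝ) := by
  classical
  obtain ⟨C, hC0, hC⟩ := MO_PA_sum hMER
  refine ⟨2 * C, 13824, by positivity, by norm_num, ?_⟩
  intro T H R X lam hT hH hc r hr S hS E e hE
  have hT0 : 0 < T := by linarith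
  have hH0 : 0 < H := lt_of_lt_of_le (Real.rpow_pos_of_pos hT0 _) hH
  have hSR : S ⊆ range R := hS.trans (range_subset_range.2 hr)
  set G := ∑ i ∈ S, (KK lam i : ℝ) * Real.log (X (i + 1)) with hG
  have hG0 : 0 ≤ G := by
    apply sum_nonneg fun i hi => ?_
    have hi' := mem_range.1 (hSR hi)
    have := MO_X_ge hc (show i + 1 ≤ R by omega)
    exact mul_nonneg (by positivity) (Real.log_nonneg (by linarith))
  set Y := ⌈Real.exp G⌉₊ with hY
  have hYle : Real.exp G ≤ Y := Nat.le_ceil _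
  have hYlt : (Y : ℝ) ≤ 2 * Real.exp G := by
    have h1 := Nat.ceil_lt_add_one (Real.exp_pos G).le
    have h2 : 1 ≤ Real.exp G := Real.one_le_exp hG0
    linarith
  obtain ⟨-, hN, -, -⟩ := hCO (Real.log T) R X lam hc S hSR Y hYle
  set A := (Icc 1 Y).filter (fun d => Okd X lam S d) with hA
  have hNN : ∀ t, NN X lam S t = ∑ x ∈ A, cN X lam S x * mo x t := by
    intro t
    rw [hN t]
    unfold D
    rw [hA, sum_filter]
    apply sum_congr rfl fun x _ => ?_
    split_ifs with h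
    · rfl
    · unfold cN
      rw [if_neg h, zero_mul]
  simp only [hNN]
  -- sizes
  set Y' := ⌊2 * T ^ (1 / 30 : ℝ)⌋₊ with hY'
  have hTp : 1 ≤ T ^ (1 / 30 : ℝ) := Real.one_le_rpow (by linarith) (by norm_num)
  have hY'1 : 1 ≤ Y' := Nat.le_floor (by push_cast; linarith)
  have hY'le : (Y' : ℝ) ≤ 2 * T ^ (1 / 30 : ℝ) := Nat.floor_le (by positivity)
  have hsize : ∀ x ∈ A, ∀ y ∈ E, 1 ≤ x * y ∧ x * y ≤ Y' := by
    intro x hx y hy
    rw [hA, mem_filter, mem_Icc] at hx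
    obtain ⟨hy0, -, hy2⟩ := hE y hy
    refine ⟨Nat.one_le_iff_ne_zero.2 (Nat.mul_ne_zero (by omega) hy0), ?_⟩
    apply Nat.le_floor
    push_cast
    have hy0' : (0 : ℝ) < y := by exact_mod_cast Nat.pos_of_ne_zero hy0
    have h1 : (x : ℝ) ≤ 2 * Real.exp G := le_trans (by exact_mod_cast hx.1.2) hYlt
    calc (x : ℝ) * y ≤ (2 * Real.exp G) * y := by gcongr
      _ = 2 * Real.exp (Real.log y + G) := by
          rw [Real.exp_add, Real.exp_log hy0']
          ring
      _ ≤ 2 * Real.exp (Real.log T / 30) := by gcongr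
      _ = 2 * T ^ (1 / 30 : ℝ) := by
          rw [Real.rpow_def_of_pos hT0]
          congr 2
          ring
  have hlen : 4 * (Y' : ℝ) * (1 + Real.log Y') ≤ H := by
    have h1 : Real.log Y' ≤ Y' := (Real.log_le_sub_one_of_pos (by positivity)).trans (by linarith)
    have h2 : (T ^ (1 / 30 : ℝ)) ^ 2 ≤ T ^ (1 / 6 : ℝ) := by
      rw [← Real.rpow_natCast, ← Real.rpow_mul hT0.le]
      apply Real.rpow_le_rpow_of_exponent_le (by linarith)
      norm_num
    have h3 : 24 * T ^ (1 / 6 : ℝ) ≤ T ^ (1 / 2 : ℝ) := by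
      have h4 : T ^ (1 / 3 : ℝ) * T ^ (1 / 6 : ℝ) = T ^ (1 / 2 : ℝ) := by
        rw [← Real.rpow_add hT0]
        norm_num
      have h5 : (24 : ℝ) ≤ T ^ (1 / 3 : ℝ) := by
        have h6 : (13824 : ℝ) ^ (1 / 3 : ℝ) = 24 := by
          rw [show (13824 : ℝ) = 24 ^ (3 : ℝ) by norm_num, ← Real.rpow_mul (by norm_num)]
          norm_num
        rw [← h6]
        exact Real.rpow_le_rpow (by norm_num) hT (by norm_num)
      rw [← h4]
      exact mul_le_mul_of_nonneg_right h5 (by positivity)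
    have h7 : (0 : ℝ) ≤ Y' := by positivity
    calc 4 * (Y' : ℝ) * (1 + Real.log Y') ≤ 4 * (Y' : ℝ) * (1 + Y') := by gcongr
      _ ≤ 4 * (2 * T ^ (1 / 30 : ℝ)) * (1 + 2 * T ^ (1 / 30 : ℝ)) := by gcongr
      _ ≤ 4 * (2 * T ^ (1 / 30 : ℝ)) * (3 * T ^ (1 / 30 : ℝ)) := by
          gcongr
          linarith
      _ = 24 * (T ^ (1 / 30 : ℝ)) ^ 2 := by ring
      _ ≤ 24 * T ^ (1 / 6 : ℝ) := by gcongr
      _ ≤ T ^ (1 / 2 : ℝ) := h3
      _ ≤ H := hH
  have hcop : ∀ x ∈ A, ∀ y ∈ E, Nat.Coprime x y := by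
    intro x hx y hy
    rw [hA, mem_filter, mem_Icc] at hx
    obtain ⟨hy0, hy1, -⟩ := hE y hy
    rw [Nat.coprime_iff_gcd_eq_one]
    by_contra hg
    obtain ⟨p, hp, hpd⟩ := Nat.exists_prime_and_dvd hg
    have hpx : p ∈ x.primeFactors :=
      Nat.mem_primeFactors.2 ⟨hp, hpd.trans (Nat.gcd_dvd_left _ _), hx.2.1⟩
    have hpy : p ∈ y.primeFactors :=
      Nat.mem_primeFactors.2 ⟨hp, hpd.trans (Nat.gcd_dvd_right _ _), hy0⟩
    obtain ⟨i, hi, hpi⟩ := hx.2.2.1 p hpx
    exact hy1 p hpy i hi hpi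
  have huniq : ∀ x ∈ A, ∀ y ∈ E, ∀ x' ∈ A, ∀ y' ∈ E, x * y = x' * y' → x = x' ∧ y = y' := by
    intro x hx y hy x' hx' y' hy' h
    have h1 : x ∣ x' := by
      apply Nat.Coprime.dvd_of_dvd_mul_right (hcop x hx y' hy')
      exact ⟨y, h.symm⟩
    have h2 : x' ∣ x := by
      apply Nat.Coprime.dvd_of_dvd_mul_right (hcop x' hx' y hy)
      exact ⟨y', h⟩
    have h3 : x = x' := Nat.dvd_antisymm h1 h2
    refine ⟨h3, ?_⟩
    have hx0 : 0 < x := by
      rw [hA, mem_filter, mem_Icc] at hx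
      omega
    rw [← h3] at h
    exact Nat.eq_of_mul_eq_mul_left hx0 h
  have hmain := hMVP T H Y' A E (cN X lam S) e hH0 hY'1 hsize huniq hlen
  refine hmain.trans ?_
  -- the diagonal
  have hP : ∀ p ∈ PA (X r), p.Prime := fun p hp => (mem_filter.1 hp).2.1
  have hdiag : ∑ x ∈ A, ‖cN X lam S x‖ ^ 2 / (x : ℝ) ≤ C * Real.log (X r) ^ (1 / 4 : ℝ) := by
    refine le_trans ?_ (hC (X r) (MO_X_ge hc hr))
    refine le_trans ?_ (hSKE (PA (X r)) hP Y (1 / 4) (by norm_num))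
    have hsub : A ⊆ SK (PA (X r)) Y := by
      intro x hx
      rw [hA, mem_filter, mem_Icc] at hx
      have hpf : ∀ p ∈ x.primeFactors, p ∈ PA (X r) := by
        intro p hp
        obtain ⟨i, hi, hpi⟩ := hx.2.2.1 p hp
        have hir := mem_range.1 (hS hi)
        have h1 := MO_PB hpi (by linarith [MO_X_ge hc (show i + 1 ≤ R by omega)])
        unfold PA
        rw [mem_filter, mem_Icc]
        refine ⟨⟨h1.1.one_lt.le, Nat.le_floor ?_⟩, h1.1, ?_⟩
        · exact h1.2.2.trans (MO_X_mono hc (by omega) hr)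
        · exact lt_of_le_of_lt (MO_X_ge hc (by omega)) h1.2.1
      have hsl := MO_sum_lt (PA (X r)) x hx.2.1 hpf
      have hsY : ∑ p ∈ PA (X r), x.factorization p ≤ Y := by omega
      unfold SK
      rw [mem_filter, mem_Icc]
      refine ⟨⟨hx.1.1, ?_⟩, hpf, hsY⟩
      apply MO_le_prod _ x Y hx.2.1 hpf hP
      intro p hp
      exact (single_le_sum (f := fun p => x.factorization p) (fun _ _ => Nat.zero_le _) hp).trans hsY
    refine le_trans ?_ (sum_le_sum_of_subset_of_nonneg hsub fun x _ _ => ?_)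
    · apply sum_le_sum fun x hx => ?_
      rw [hA, mem_filter, mem_Icc] at hx
      unfold cN
      rw [if_pos hx.2, Complex.norm_real, Real.norm_eq_abs, sq_abs]
      exact div_le_div_of_nonneg_right (MO_cf_sq x) (by positivity)
    · exact div_nonneg (MO_cf_nonneg _ (by norm_num) x) (by positivity)
  have hE0 : 0 ≤ ∑ y ∈ E, ‖e y‖ ^ 2 / (y : ℝ) := sum_nonneg fun y _ => by positivity
  calc 2 * H * ((∑ x ∈ A, ‖cN X lam S x‖ ^ 2 / (x : ℝ)) * ∑ y ∈ E, ‖e y‖ ^ 2 / (y : ℝ))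
      ≤ 2 * H * ((C * Real.log (X r) ^ (1 / 4 : ℝ)) * ∑ y ∈ E, ‖e y‖ ^ 2 / (y : ℝ)) := by
        gcongr
    _ = _ := by ring


/-- block MOs -/
theorem stmt_MOs (hCO : Stmt_CO) (hPWR : Stmt_PWR) (hSKE : Stmt_SKE) (hMVP : Stmt_MVPs)
    (hMER : Stmt_MER) : Stmt_MOs := by
  obtain ⟨C, T0, hC0, hT0, hgen⟩ := MO_gen_s hCO hSKE hMVP hMER
  refine ⟨C, T0, hC0, hT0, ?_⟩
  intro T H R X lam hT hH hc j hj
  have hT1 : 1 < T := by linarith
  have hH0 : 0 < H := lt_of_lt_of_le (Real.rpow_pos_of_pos (by linarith) _) hH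
  have hL : 0 ≤ Real.log T := (Real.log_pos hT1).le
  constructor
  · have h := hgen T H R X lam hT hH hc j hj (range j) (Subset.refl _) {1} (fun _ => 1) (by
      intro y hy
      rw [mem_singleton] at hy
      subst hy
      refine ⟨by norm_num, by simp, ?_⟩
      rcases Nat.eq_zero_or_pos j with h0 | h0
      · subst h0
        simp
        positivity
      · -- use index `j - 1`
        have h1 : range j = insert (j - 1) (range (j - 1)) := by
          ext i
          simp only [mem_range, mem_insert]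
          omega
        rw [h1, sum_insert (by simp), Nat.cast_one, Real.log_one, zero_add]
        exact MO_len hc hL (range_subset_range.2 (by omega)) (by omega) (by simp) (by
          have := MO_K_le (hc.lam1 (j - 1) (by omega))
          have := hc.lam1 (j - 1) (by omega)
          linarith))
    simpa [MO_one] using h
  · intro hjR
    set m := mm lam j with hm
    have hP : ∀ p ∈ PB X j, p.Prime := fun p hp => (mem_filter.1 hp).2.1
    have h := hgen T H R X lam hT hH hc j hj (range j) (Subset.refl _) (SE (PB X j) m)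
      (fun e => (((m.factorial : ℝ) * cf 1 e : ℝ) : ℂ)) (by
      intro y hy
      have h1 := MO_SE_mem hy
      refine ⟨h1.1, ?_, ?_⟩
      · intro p hp i hi hpi
        have := MO_disj hc (show i < R by have := mem_range.1 hi; omega) hjR hpi (h1.2.1 p hp)
        have := mem_range.1 hi
        omega
      · have h2 := MO_SE_log hc hjR hy
        have h3 := MO_len hc hL (range_subset_range.2 hjR.le) hjR (by simp)
          (c := (m : ℝ)) (by
            have := MO_m_le (hc.lam1 j hjR)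
            have := hc.lam1 j hjR
            linarith)
        linarith)
    have e1 : ∀ t, ‖NN X lam (range j) t‖ ^ 2 *
        ‖∑ y ∈ SE (PB X j) m, (((m.factorial : ℝ) * cf 1 y : ℝ) : ℂ) * mo y t‖ ^ 2 =
        ‖NN X lam (range j) t‖ ^ 2 * ‖PP X j t‖ ^ (2 * m) := by
      intro t
      have := hPWR (PB X j) hP m t
      rw [← this]
      unfold PP
      rw [norm_pow, ← pow_mul, mul_comm m 2]
    simp only [e1] at h
    refine h.trans ?_
    have hs : ∑ y ∈ SE (PB X j) m, ‖((((m.factorial : ℝ) * cf 1 y : ℝ)) : ℂ)‖ ^ 2 / (y : ℝ) ≤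
        (m.factorial : ℝ) * lam j ^ m := by
      calc ∑ y ∈ SE (PB X j) m, ‖((((m.factorial : ℝ) * cf 1 y : ℝ)) : ℂ)‖ ^ 2 / (y : ℝ)
          ≤ ∑ y ∈ SE (PB X j) m, (m.factorial : ℝ) * ((m.factorial : ℝ) * cf 1 y / (y : ℝ)) := by
            apply sum_le_sum fun y hy => ?_
            rw [Complex.norm_real, Real.norm_eq_abs, sq_abs, ← mul_div_assoc]
            apply div_le_div_of_nonneg_right _ (by positivity)
            have h1 := MO_cf_le_one y
            have h2 := MO_cf_nonneg 1 (by norm_num) y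
            have h3 : cf 1 y ^ 2 ≤ cf 1 y := by nlinarith
            calc ((m.factorial : ℝ) * cf 1 y) ^ 2 = (m.factorial : ℝ) ^ 2 * cf 1 y ^ 2 := by ring
              _ ≤ (m.factorial : ℝ) ^ 2 * cf 1 y := by gcongr
              _ = _ := by ring
        _ = (m.factorial : ℝ) * (∑ p ∈ PB X j, (1 / (p : ℝ))) ^ m := by
            rw [← mul_sum, MO_mult _ hP]
        _ ≤ (m.factorial : ℝ) * lam j ^ m := by
            have := hc.sig j hjR
            gcongr
    have hX := MO_X_ge hc hj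
    have hlX : 0 ≤ Real.log (X j) := Real.log_nonneg (by linarith)
    have : 0 ≤ C * H * Real.log (X j) ^ (1 / 4 : ℝ) := by positivity
    gcongr

end HZS
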