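import Mathlib
import Pool.Agent.Work.MP_c51bc2_nt_s.Interface
import Pool.Agent.Work.MP_c51bc2_nt.B_PAR

open Finset Complex MeasureTheory

namespace HZS

noncomputable section

theorem stmt_PARs (hM : Stmt_MER) (hM2 : Stmt_MER2) : Stmt_PARs := by
  classical
  intro δ hδ hδ20
  obtain ⟨C1, h1⟩ := hM
  obtain ⟨C2, hC2, h2⟩ := hM2
  -- the constant
  set A : ℝ := max (max 20 (2 * Real.log (200 / δ))) (max C1 C2) with hA
  have hA20 : 20 ≤ A := (le_max_left _ _).trans (le_max_left _ _)
  have hAδ : 2 * Real.log (200 / δ) ≤ A := (le_max_right _ _).trans (le_max_left _ _)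
  have hAC1 : C1 ≤ A := (le_max_left _ _).trans (le_max_right _ _)
  have hAC2 : C2 ≤ A := (le_max_right _ _).trans (le_max_right _ _)
  refine ⟨Real.exp A, 2, ?_, by norm_num, ?_⟩
  · have := Real.add_one_le_exp A
    linarith
  intro L W hL0 hW0 hWL
  have hexpA : 21 ≤ Real.exp A := by
    have := Real.add_one_le_exp A
    linarith
  have hWpos : 0 < W := by linarith
  have hLpos : 0 < L := by linarith
  have hlogW : A ≤ Real.log W := by
    rw [Real.le_log_iff_exp_le hWpos]
    exact hW0
  have hlogW20 : 20 ≤ Real.log W := hA20.trans hlogW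
  have hge := PARa_ge hlogW20
  have htwo := PARa_two hlogW20
  have hmono := PARa_mono hlogW20
  -- the length
  have hex : ∃ n : ℕ, Real.log L - 2 ≤ PARa W (n + 1) := by
    refine ⟨⌈Real.log L⌉₊, ?_⟩
    have h3 := PARa_lin hlogW20 (⌈Real.log L⌉₊ + 1)
    have h4 := Nat.le_ceil (Real.log L)
    push_cast at h3
    linarith
  obtain ⟨n, hn, hmin⟩ : ∃ n : ℕ, Real.log L - 2 ≤ PARa W (n + 1) ∧
      ∀ i < n, PARa W (i + 1) < Real.log L - 2 := by
    refine ⟨Nat.find hex, Nat.find_spec hex, fun i hi => ?_⟩
    have := Nat.find_min hex hi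
    exact not_le.1 this
  have hlogL : Real.log W + Real.log 5 ≤ Real.log L := by
    rw [← Real.log_mul hWpos.ne' (by norm_num)]
    exact Real.log_le_log (by positivity) (by linarith)
  have hlog5 : 0 < Real.log 5 := Real.log_pos (by norm_num)
  have hlogL20 : 20 ≤ Real.log L := by linarith
  -- `L exp (- a_n) ≥ 5`
  have hX1 : 5 ≤ L * Real.exp (-PARa W n) := by
    rcases Nat.eq_zero_or_pos n with h0 | h0
    · rw [h0]
      show 5 ≤ L * Real.exp (-Real.log W)
      rw [Real.exp_neg, Real.exp_log hWpos, ← div_eq_mul_inv, le_div_iff₀ hWpos]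
      linarith
    · have h3 := hmin (n - 1) (by omega)
      have h4 : n - 1 + 1 = n := by omega
      rw [h4] at h3
      have h5 : Real.exp 2 ≤ Real.exp (Real.log L + -PARa W n) :=
        Real.exp_le_exp.2 (by linarith)
      rw [Real.exp_add, Real.exp_log hLpos] at h5
      have h6 : (5 : ℝ) ≤ Real.exp 2 := by
        have h7 := Real.quadratic_le_exp_of_nonneg (x := 2) (by norm_num)
        norm_num at h7 ⊢
        linarith
      linarith
  set X : ℕ → ℝ := fun j => if j = 0 then 100 else Real.exp (L * Real.exp (-PARa W (n + 1 - j)))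
    with hX
  set lam : ℕ → ℝ := fun j => if j = 0 then Real.log L else PARa W (n + 1 - j) with hlam
  have hX0 : X 0 = 100 := by simp [hX]
  have hXs : ∀ j, X (j + 1) = Real.exp (L * Real.exp (-PARa W (n - j))) := by
    intro j
    simp only [hX]
    rw [if_neg (Nat.succ_ne_zero j)]
    have : n + 1 - (j + 1) = n - j := by omega
    rw [this]
  have hl0 : lam 0 = Real.log L := by simp [hlam]
  have hls : ∀ j, lam (j + 1) = PARa W (n - j) := by
    intro j
    simp only [hlam]
    rw [if_neg (Nat.succ_ne_zero j)]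
    have : n + 1 - (j + 1) = n - j := by omega
    rw [this]
  have hlogX : ∀ j, Real.log (X (j + 1)) = L * Real.exp (-PARa W (n - j)) := by
    intro j
    rw [hXs, Real.log_exp]
  have hX1' : 100 < X 1 := by
    rw [hXs 0]
    simp only [Nat.sub_zero]
    have h3 : Real.exp 5 ≤ Real.exp (L * Real.exp (-PARa W n)) := Real.exp_le_exp.2 hX1
    have h4 : (100 : ℝ) < Real.exp 5 := by
      have h5 := Real.exp_one_gt_d9
      have h6 : Real.exp 5 = Real.exp 1 ^ 5 := by
        rw [← Real.exp_nat_mul]; norm_num
      rw [h6]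
      have h7 : (2.7 : ℝ) ^ 5 ≤ Real.exp 1 ^ 5 :=
        pow_le_pow_left₀ (by norm_num) (by linarith) 5
      norm_num at h7 ⊢
      linarith
    linarith
  have hXmono : ∀ j < n + 1, X j < X (j + 1) := by
    intro j hj
    rcases j with _ | j
    · rw [hX0]; exact hX1'
    · rw [hXs, hXs, Real.exp_lt_exp]
      refine mul_lt_mul_of_pos_left ?_ hLpos
      rw [Real.exp_lt_exp]
      have h3 : n - j = (n - (j + 1)) + 1 := by omega
      have h4 := hmono (n - (j + 1))
      rw [← h3] at h4
      linarith
  have hsumexp : ∑ j ∈ range (n + 1), Real.exp (-lam j) ≤ 1 / W := by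
    rw [Finset.sum_range_succ', hl0]
    have h3 : ∑ j ∈ range n, Real.exp (-lam (j + 1)) =
        ∑ i ∈ range n, Real.exp (-PARa W (i + 1)) := by
      rw [← Finset.sum_range_reflect]
      refine Finset.sum_congr rfl fun j hj => ?_
      rw [Finset.mem_range] at hj
      rw [hls]
      congr 3
      omega
    rw [h3]
    have h4 := PARa_sume hlogW20 n
    have h5 := Real.exp_pos (-PARa W (n + 1))
    have h6 : Real.exp (-Real.log L) ≤ 1 / (5 * W) := by
      rw [Real.exp_neg, Real.exp_log hLpos, ← one_div]
      exact one_div_le_one_div_of_le (by positivity) (by linarith)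
    have h7 : PARa W 1 ^ 2 = W := by
      show Real.exp (Real.log W / 2) ^ 2 = W
      rw [← Real.exp_nat_mul]
      have : ((2 : ℕ) : ℝ) * (Real.log W / 2) = Real.log W := by push_cast; ring
      rw [this, Real.exp_log hWpos]
    have h8 : 2 * Real.exp (-PARa W 1) ≤ 4 / (5 * W) := by
      have h9 : 40 ≤ PARa W 1 := by
        have := htwo 0
        have := hge 0
        simp only [Nat.zero_add] at *
        linarith
      have h10 : PARa W 1 ^ 3 / 6 ≤ Real.exp (PARa W 1) := by
        have h11 := Real.pow_div_factorial_le_exp (PARa W 1) (by linarith) 3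
        simpa [Nat.factorial] using h11
      have h12 : 2 * Real.exp (-PARa W 1) ≤ 4 / (5 * PARa W 1 ^ 2) := by
        rw [Real.exp_neg, ← div_eq_mul_inv, div_le_div_iff₀ (Real.exp_pos _) (by positivity)]
        nlinarith [sq_nonneg (PARa W 1)]
      rwa [h7] at h12
    have h9 : 1 / (5 * W) + 4 / (5 * W) = 1 / W := by
      field_simp
      norm_num
    linarith
  have hn1 : Real.log L ≤ 2 * PARa W (n + 1) := by
    have := hge (n + 1)
    linarith
  have hexpn : ∀ i, Real.exp (-PARa W i) = 1 / PARa W (i + 1) / PARa W (i + 1) := by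
    intro i
    rw [PARa_succ, Real.exp_neg]
    have h3 : Real.exp (PARa W i) = Real.exp (PARa W i / 2) * Real.exp (PARa W i / 2) := by
      rw [← Real.exp_add]; ring_nf
    rw [h3]
    have h4 := Real.exp_pos (PARa W i / 2)
    field_simp
  have hlen : ∑ j ∈ range (n + 1), lam j * Real.log (X (j + 1)) ≤ δ * L / 100 := by
    rw [Finset.sum_range_succ', hl0, hlogX]
    have h3 : ∑ j ∈ range n, lam (j + 1) * Real.log (X (j + 1 + 1)) =
        ∑ i ∈ range n, L * (1 / PARa W (i + 1)) := by
      rw [← Finset.sum_range_reflect]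
      refine Finset.sum_congr rfl fun j hj => ?_
      rw [Finset.mem_range] at hj
      rw [hls, hlogX, hexpn]
      have h4 : n - (n - 1 - j + 1) + 1 = n - (n - 1 - j) := by omega
      have h5 : n - (n - 1 - j) = j + 1 := by omega
      rw [h4, h5]
      have h6 := hge (j + 1)
      field_simp
    rw [h3, ← Finset.mul_sum]
    have h4 := PARa_sum hlogW20 n
    simp only [Nat.sub_zero]
    have h5 := hge (n + 1)
    have h6 : Real.log L * (L * Real.exp (-PARa W n)) ≤ L * (2 / PARa W (n + 1)) := by
      rw [hexpn]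
      have h7 : Real.log L * (L * (1 / PARa W (n + 1) / PARa W (n + 1))) =
          L * (Real.log L / PARa W (n + 1) ^ 2) := by
        field_simp
      rw [h7]
      refine mul_le_mul_of_nonneg_left ?_ hLpos.le
      rw [div_le_div_iff₀ (by positivity) (by linarith)]
      nlinarith
    have h7 : 200 / δ ≤ PARa W 1 := by
      show 200 / δ ≤ Real.exp (Real.log W / 2)
      rw [← Real.log_le_iff_le_exp (by positivity)]
      linarith
    have h8 : 2 / PARa W 1 ≤ δ / 100 := by
      have h3 : 0 < 200 / δ := by positivity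
      rw [div_le_div_iff₀ (by linarith) (by norm_num)]
      rw [div_le_iff₀ hδ] at h7
      linarith
    have h9 : L * ∑ i ∈ range n, 1 / PARa W (i + 1) ≤
        L * (2 / PARa W 1 - 2 / PARa W (n + 1)) := mul_le_mul_of_nonneg_left h4 hLpos.le
    have h10 : L * (2 / PARa W 1) ≤ L * (δ / 100) := mul_le_mul_of_nonneg_left h8 hLpos.le
    linarith
  have hXR : X (n + 1) = Real.exp (L / W) := by
    rw [hXs]
    simp only [Nat.sub_self]
    show Real.exp (L * Real.exp (-Real.log W)) = _
    rw [Real.exp_neg, Real.exp_log hWpos, div_eq_mul_inv]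
  have hlen' : ∑ j ∈ range (n + 1), lam j * Real.log (X (j + 1)) ≤ L / 2000 := by
    have h3 : δ * L ≤ 1 / 20 * L := mul_le_mul_of_nonneg_right hδ20 hLpos.le
    linarith
  refine ⟨n + 1, X, lam, ⟨hX0, hXmono, ?_, ?_, ?_, ?_, hlen'⟩, hlen, hXR, hsumexp⟩
  · -- lam1
    intro j hj
    rcases j with _ | j
    · rw [hl0]; linarith
    · rw [hls]
      have := hge (n - j)
      linarith
  · -- sig
    intro j hj
    rcases j with _ | j
    · rw [hl0]
      have h3 : ∑ p ∈ PB X 0, (1 / (p : ℝ)) ≤
          ∑ p ∈ (Icc 1 ⌊X 1⌋₊).filter Nat.Prime, (1 / (p : ℝ)) := by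
        refine Finset.sum_le_sum_of_subset_of_nonneg ?_ fun p _ _ => by positivity
        intro p hp
        unfold PB at hp
        rw [Finset.mem_filter] at hp ⊢
        exact ⟨hp.1, hp.2.1⟩
      have h4 := h1 (X 1) (by linarith)
      have h5 : Real.log (Real.log (X 1)) = Real.log L - PARa W n := by
        have := hlogX 0
        simp only [Nat.zero_add, Nat.sub_zero] at this
        rw [this, Real.log_mul hLpos.ne' (Real.exp_pos _).ne', Real.log_exp]
        ring
      have h6 : A ≤ PARa W n := hlogW.trans (PARa_zero_le hlogW20 n)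
      linarith
    · rw [hls]
      have h100 : ∀ i ≤ n, 100 < X (i + 1) := by
        intro i
        induction i with
        | zero => intro _; exact hX1'
        | succ i ih =>
          intro hi
          have := ih (by omega)
          have h3 := hXmono (i + 1) (by omega)
          linarith
      have h3 := h2 (X (j + 1)) (X (j + 1 + 1)) (by have := h100 j (by omega); linarith)
        (hXmono (j + 1) (by omega)).le
      have h4 : Real.log (Real.log (X (j + 1 + 1)) / Real.log (X (j + 1))) =
          PARa W (n - j) - PARa W (n - (j + 1)) := by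
        rw [hlogX, hlogX]
        have h5 : L * Real.exp (-PARa W (n - (j + 1))) / (L * Real.exp (-PARa W (n - j))) =
            Real.exp (PARa W (n - j) - PARa W (n - (j + 1))) := by
          rw [mul_div_mul_left _ _ hLpos.ne', ← Real.exp_sub]
          ring_nf
        rw [h5, Real.log_exp]
      rw [h4] at h3
      have h6 : A ≤ PARa W (n - (j + 1)) := hlogW.trans (PARa_zero_le hlogW20 _)
      have h7 : ∑ p ∈ PB X (j + 1), (1 / (p : ℝ)) =
          ∑ p ∈ (Icc 1 ⌊X (j + 1 + 1)⌋₊).filter (fun p : ℕ => p.Prime ∧ X (j + 1) < (p : ℝ)),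
            (1 / (p : ℝ)) := rfl
      rw [h7]
      linarith
  · -- top
    intro j hj
    rw [hXR, Real.log_exp]
    have hLW : L / W ≤ L := div_le_self hLpos.le (by linarith)
    rcases j with _ | j
    · rw [hl0, hX0, Real.exp_log hLpos]
      have h3 : 1 ≤ Real.log 100 := by
        rw [Real.le_log_iff_exp_le (by norm_num)]
        have := Real.exp_one_lt_d9
        linarith
      nlinarith
    · rw [hls, hlogX]
      have h3 : Real.exp (PARa W (n - j)) * (L * Real.exp (-PARa W (n - j))) = L := by
        rw [mul_left_comm, ← Real.exp_add, add_neg_cancel, Real.exp_zero, mul_one]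
      rw [h3]
      exact hLW
  · -- sum
    refine hsumexp.trans ?_
    exact one_div_le_one_div_of_le (by norm_num) (by linarith)

end

end HZS
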