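import Pool.Agent.Work.MP_c51bc2_nt_s.Interface
import Pool.Agent.Work.MP_c51bc2_nt.B_TF

/-! # TFs: the twisted first moment on `[T, T+H]` -/

open Finset Complex MeasureTheory

namespace HZS

noncomputable section

lemma TFs_int_diag {n m k : ℕ} (hn : 1 ≤ n) (hm : 1 ≤ m) (hk : 1 ≤ k) (h : n * m = k) (T H : ℝ) :
    ∫ t in T..(T + H), mo n t * mo m t * (starRingEnd ℂ) (mo k t) = (H : ℂ) / (k : ℂ) := by
  have e : ∀ t : ℝ, mo n t * mo m t * (starRingEnd ℂ) (mo k t) = ((1 / (k : ℝ) : ℝ) : ℂ) := by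
    intro t
    rw [TF_prod hn hm hk, h, sub_self]
    simp only [Complex.ofReal_zero, zero_mul, Complex.exp_zero, mul_one]
    congr 1
    have hk0 : (0 : ℝ) ≤ k := Nat.cast_nonneg _
    have : Real.sqrt n * Real.sqrt m = Real.sqrt k := by
      rw [← Real.sqrt_mul (Nat.cast_nonneg _), ← h]
      push_cast
      rfl
    rw [one_div_mul_one_div, this, one_div_mul_one_div, Real.mul_self_sqrt hk0]
  simp_rw [e]
  rw [intervalIntegral.integral_const]
  simp only [Complex.real_smul]
  push_cast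
  ring

lemma TFs_int_off {n m k Y : ℕ} (hn : 1 ≤ n) (hm : 1 ≤ m) (hk : 1 ≤ k) (hY : k ≤ Y)
    (h : n * m ≠ k) (T H : ℝ) :
    ‖∫ t in T..(T + H), mo n t * mo m t * (starRingEnd ℂ) (mo k t)‖ ≤
      1 / Real.sqrt n * (4 * Y) := by
  have hnm : 1 ≤ n * m := Nat.one_le_iff_ne_zero.mpr (by positivity)
  have hlog := TF_log hnm hk hY h
  set w : ℝ := Real.log k - Real.log (n * m : ℕ) with hw
  have hYpos : (0 : ℝ) < Y := by exact_mod_cast (by omega : 0 < Y)
  have hw0 : w ≠ 0 := by
    intro h0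
    rw [h0, abs_zero] at hlog
    have : (0 : ℝ) < 1 / (2 * Y) := by positivity
    linarith
  simp_rw [TF_prod hn hm hk]
  rw [intervalIntegral.integral_const_mul, norm_mul, Complex.norm_real]
  have hc : ((w : ℝ) : ℂ) * I ≠ 0 := mul_ne_zero (by exact_mod_cast hw0) I_ne_zero
  rw [← hw, integral_exp_mul_complex hc]
  have hsn : (1 : ℝ) ≤ Real.sqrt n := by rw [Real.one_le_sqrt]; exact_mod_cast hn
  have hsm : (1 : ℝ) ≤ Real.sqrt m := by rw [Real.one_le_sqrt]; exact_mod_cast hm
  have hsk : (1 : ℝ) ≤ Real.sqrt k := by rw [Real.one_le_sqrt]; exact_mod_cast hk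
  have h1 : ‖(1 / Real.sqrt n * (1 / Real.sqrt m) * (1 / Real.sqrt k) : ℝ)‖ ≤ 1 / Real.sqrt n := by
    rw [Real.norm_of_nonneg (by positivity)]
    have ha : 1 / Real.sqrt m ≤ 1 := by rw [div_le_one (by linarith)]; exact hsm
    have hb : 1 / Real.sqrt k ≤ 1 := by rw [div_le_one (by linarith)]; exact hsk
    have h0 : 0 ≤ 1 / Real.sqrt n := by positivity
    calc 1 / Real.sqrt n * (1 / Real.sqrt m) * (1 / Real.sqrt k)
        ≤ 1 / Real.sqrt n * 1 * 1 := by gcongr
      _ = 1 / Real.sqrt n := by ring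
  have h2 : ‖(cexp (((w : ℝ) : ℂ) * I * ((T + H : ℝ) : ℂ)) - cexp (((w : ℝ) : ℂ) * I * (T : ℂ))) /
      (((w : ℝ) : ℂ) * I)‖ ≤ 4 * Y := by
    rw [norm_div, norm_mul, Complex.norm_I, mul_one, Complex.norm_real, Real.norm_eq_abs]
    have he : ∀ s : ℝ, ‖cexp (((w : ℝ) : ℂ) * I * (s : ℂ))‖ = 1 := by
      intro s
      rw [Complex.norm_exp]
      simp
    have h3 : ‖cexp (((w : ℝ) : ℂ) * I * ((T + H : ℝ) : ℂ)) - cexp (((w : ℝ) : ℂ) * I * (T : ℂ))‖ ≤ 2 := by
      calc _ ≤ ‖cexp (((w : ℝ) : ℂ) * I * ((T + H : ℝ) : ℂ))‖ +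
            ‖cexp (((w : ℝ) : ℂ) * I * (T : ℂ))‖ := norm_sub_le _ _
        _ = 2 := by rw [he, he]; norm_num
    have hwp : 0 < |w| := abs_pos.mpr hw0
    rw [div_le_iff₀ hwp]
    calc _ ≤ (2 : ℝ) := h3
      _ = 4 * Y * (1 / (2 * Y)) := by field_simp; norm_num
      _ ≤ 4 * Y * |w| := by gcongr
  exact mul_le_mul h1 h2 (norm_nonneg _) (by positivity)

theorem stmt_TFs (hZS : Stmt_ZS) (hCO : Stmt_CO) : Stmt_TFs := by
  intro δ hδ hδ1
  obtain ⟨C, T0, hC, hT0, hZ⟩ := hZS
  refine ⟨C + 20, T0, by positivity, hT0, ?_⟩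
  intro T H R X lam hT hadm hch hsh Y hY1 hY2
  obtain ⟨hHlo, hHT⟩ := hadm
  have hT1 : 1 < T := lt_of_lt_of_le hT0 hT
  have hTpos : 0 < T := by linarith
  have hLpos : 0 < Real.log T := Real.log_pos hT1
  have hHpos : 0 < H := lt_of_lt_of_le (Real.rpow_pos_of_pos hTpos _) hHlo
  -- the length
  have hlen : Real.exp (∑ i ∈ range R, (KK lam i : ℝ) * Real.log (X (i + 1))) ≤ Y := by
    refine le_trans ?_ hY1
    rw [Real.rpow_def_of_pos hTpos]
    apply Real.exp_le_exp.mpr
    have hX : ∀ i ≤ R, 100 ≤ X i := by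
      intro i
      induction i with
      | zero => intro _; rw [hch.x0]
      | succ i ih =>
        intro hi
        have := hch.mono i (by omega)
        have := ih (by omega)
        linarith
    have h1 : ∑ i ∈ range R, (KK lam i : ℝ) * Real.log (X (i + 1)) ≤
        ∑ i ∈ range R, 51 * (lam i * Real.log (X (i + 1))) := by
      apply Finset.sum_le_sum
      intro i hi
      rw [Finset.mem_range] at hi
      have h2 : (KK lam i : ℝ) ≤ 51 * lam i := by
        unfold KK
        have h3 := hch.lam1 i hi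
        have h4 := (Nat.ceil_lt_add_one (show 0 ≤ 50 * lam i by linarith)).le
        linarith
      have h5 : 0 ≤ Real.log (X (i + 1)) := Real.log_nonneg (by
        have := hX (i + 1) (by omega); linarith)
      nlinarith
    rw [← Finset.mul_sum] at h1
    have h6 : ∑ j ∈ range R, lam j * Real.log (X (j + 1)) ≤ δ * Real.log T / 100 := hsh
    have h7 : 0 < δ * Real.log T := by positivity
    have h8 : Real.log T * (2 * δ / 3) = 2 / 3 * (δ * Real.log T) := by ring
    rw [h8]
    linarith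
  obtain ⟨hM, hN, -, -⟩ := hCO (Real.log T) R X lam hch (range R) (Finset.Subset.refl _) Y hlen
  have hY1' : (1 : ℝ) ≤ Y := le_trans (Real.one_le_rpow hT1.le (by positivity)) hY1
  have hYpos : (0 : ℝ) < Y := by linarith
  set b := cM X lam (range R) with hb
  set c := cN X lam (range R) with hc
  set N := N0 T with hNdef
  have hYT : (Y : ℝ) ≤ T := le_trans hY2 (by
    calc T ^ δ ≤ T ^ (1 : ℝ) := Real.rpow_le_rpow_of_exponent_le hT1.le (by linarith)
      _ = T := Real.rpow_one T)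
  have hNle : (N : ℝ) ≤ 5 * T := by
    rw [hNdef]
    unfold N0
    push_cast
    have := (Nat.ceil_lt_add_one (show 0 ≤ 3 * T by linarith)).le
    linarith
  have hNge : 3 * T ≤ N := by
    rw [hNdef]
    unfold N0
    push_cast
    have := Nat.le_ceil (3 * T)
    linarith
  have hYN : Y ≤ N := by
    have : (Y : ℝ) ≤ N := by linarith
    exact_mod_cast this
  simp_rw [hM, hN]
  -- the partial sum of zeta
  set Sg : ℝ → ℂ := fun t => ∑ n ∈ Icc 1 N, mo n t with hSg
  have hScont : Continuous Sg := by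
    apply continuous_finsetSum
    intro n hn
    rw [Finset.mem_Icc] at hn
    exact TF_mo_cont hn.1
  have hDb := TF_D_cont b Y
  have hDc := TF_D_cont c Y
  have hzc := TF_zeta_cont
  have hcc : Continuous (fun t => (starRingEnd ℂ) (D c Y t)) := Complex.continuous_conj.comp hDc
  -- the error term of zeta
  have hE : ‖∫ t in T..(T + H), (riemannZeta (1 / 2 + I * t) - Sg t) * D b Y t *
      (starRingEnd ℂ) (D c Y t)‖ ≤ (C / Real.sqrt T * Y * Y) * |(T + H) - T| := by
    apply intervalIntegral.norm_integral_le_of_norm_le_const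
    intro t ht
    rw [Set.uIoc_of_le (by linarith)] at ht
    rw [norm_mul, norm_mul, RCLike.norm_conj]
    have h1 := hZ T t hT (by linarith [ht.1]) (by linarith [ht.2])
    have h2 := TF_D_norm (TF_cM X lam (range R)) Y t
    have h3 := TF_D_norm (TF_cN X lam (range R)) Y t
    gcongr
  have hsplit : (∫ t in T..(T + H), riemannZeta (1 / 2 + I * t) * D b Y t *
      (starRingEnd ℂ) (D c Y t)) =
      (∫ t in T..(T + H), (riemannZeta (1 / 2 + I * t) - Sg t) * D b Y t *
      (starRingEnd ℂ) (D c Y t)) +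
      ∫ t in T..(T + H), Sg t * D b Y t * (starRingEnd ℂ) (D c Y t) := by
    rw [← intervalIntegral.integral_add]
    · apply intervalIntegral.integral_congr
      intro t _
      simp only
      ring
    · exact (((hzc.sub hScont).mul hDb).mul hcc).intervalIntegrable _ _
    · exact ((hScont.mul hDb).mul hcc).intervalIntegrable _ _
  -- expand
  have hexp : (∫ t in T..(T + H), Sg t * D b Y t * (starRingEnd ℂ) (D c Y t)) =
      ∑ k ∈ Icc 1 Y, ∑ m ∈ Icc 1 Y, ∑ n ∈ Icc 1 N,
        (b m * c k) * ∫ t in T..(T + H), mo n t * mo m t * (starRingEnd ℂ) (mo k t) := by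
    have h1 : ∀ t : ℝ, Sg t * D b Y t * (starRingEnd ℂ) (D c Y t) =
        ∑ k ∈ Icc 1 Y, ∑ m ∈ Icc 1 Y, ∑ n ∈ Icc 1 N,
          (b m * c k) * (mo n t * mo m t * (starRingEnd ℂ) (mo k t)) := by
      intro t
      simp only [hSg, D, map_sum, map_mul]
      rw [Finset.mul_sum]
      apply Finset.sum_congr rfl
      intro k _
      rw [hc, TF_cN_conj, Finset.sum_mul_sum, Finset.sum_comm, Finset.sum_mul]
      apply Finset.sum_congr rfl
      intro m _
      rw [Finset.sum_mul]
      apply Finset.sum_congr rfl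
      intro n _
      ring
    simp_rw [h1]
    have hint : ∀ k ∈ Icc 1 Y, ∀ m ∈ Icc 1 Y, ∀ n ∈ Icc 1 N, Continuous (fun t : ℝ =>
        (b m * c k) * (mo n t * mo m t * (starRingEnd ℂ) (mo k t))) := by
      intro k hk m hm n hn
      rw [Finset.mem_Icc] at hk hm hn
      exact continuous_const.mul (((TF_mo_cont hn.1).mul (TF_mo_cont hm.1)).mul
        (Complex.continuous_conj.comp (TF_mo_cont hk.1)))
    rw [intervalIntegral.integral_finsetSum]
    · apply Finset.sum_congr rfl
      intro k hk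
      rw [intervalIntegral.integral_finsetSum]
      · apply Finset.sum_congr rfl
        intro m hm
        rw [intervalIntegral.integral_finsetSum]
        · apply Finset.sum_congr rfl
          intro n hn
          rw [intervalIntegral.integral_const_mul]
        · intro n hn
          exact (hint k hk m hm n hn).intervalIntegrable _ _
      · intro m hm
        exact (continuous_finsetSum _ (fun n hn => hint k hk m hm n hn)).intervalIntegrable _ _
    · intro k hk
      exact (continuous_finsetSum _ (fun m hm =>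
        continuous_finsetSum _ (fun n hn => hint k hk m hm n hn))).intervalIntegrable _ _
  rw [hsplit, hexp, ← TF_diag b c N Y hYN H, add_sub_assoc, ← Finset.sum_sub_distrib]
  have hoff : ‖∑ k ∈ Icc 1 Y, ((∑ m ∈ Icc 1 Y, ∑ n ∈ Icc 1 N,
        (b m * c k) * ∫ t in T..(T + H), mo n t * mo m t * (starRingEnd ℂ) (mo k t)) -
        ∑ m ∈ Icc 1 Y, ∑ n ∈ Icc 1 N,
        (b m * c k) * (if n * m = k then (H : ℂ) / (k : ℂ) else 0))‖ ≤
      Y * (Y * (2 * Real.sqrt N * (4 * Y))) := by
    refine (norm_sum_le _ _).trans ?_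
    have h1 : ∀ k ∈ Icc 1 Y, ‖((∑ m ∈ Icc 1 Y, ∑ n ∈ Icc 1 N,
        (b m * c k) * ∫ t in T..(T + H), mo n t * mo m t * (starRingEnd ℂ) (mo k t)) -
        ∑ m ∈ Icc 1 Y, ∑ n ∈ Icc 1 N,
        (b m * c k) * (if n * m = k then (H : ℂ) / (k : ℂ) else 0))‖ ≤
        Y * (2 * Real.sqrt N * (4 * Y)) := by
      intro k hk
      rw [Finset.mem_Icc] at hk
      rw [← Finset.sum_sub_distrib]
      refine (norm_sum_le _ _).trans ?_
      have h2 : ∀ m ∈ Icc 1 Y, ‖(∑ n ∈ Icc 1 N,
          (b m * c k) * ∫ t in T..(T + H), mo n t * mo m t * (starRingEnd ℂ) (mo k t)) -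
          ∑ n ∈ Icc 1 N,
          (b m * c k) * (if n * m = k then (H : ℂ) / (k : ℂ) else 0)‖ ≤
          2 * Real.sqrt N * (4 * Y) := by
        intro m hm
        rw [Finset.mem_Icc] at hm
        rw [← Finset.sum_sub_distrib]
        refine (norm_sum_le _ _).trans ?_
        have h3 : ∀ n ∈ Icc 1 N, ‖(b m * c k) * (∫ t in T..(T + H), mo n t * mo m t *
            (starRingEnd ℂ) (mo k t)) - (b m * c k) * (if n * m = k then (H : ℂ) / (k : ℂ) else 0)‖
            ≤ 1 / Real.sqrt n * (4 * Y) := by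
          intro n hn
          rw [Finset.mem_Icc] at hn
          by_cases h : n * m = k
          · rw [if_pos h, TFs_int_diag hn.1 hm.1 hk.1 h, sub_self, norm_zero]
            positivity
          · rw [if_neg h, mul_zero, sub_zero, norm_mul, norm_mul]
            have h4 := TFs_int_off hn.1 hm.1 hk.1 hk.2 h T H
            have h5 : ‖b m‖ * ‖c k‖ ≤ 1 :=
              mul_le_one₀ (TF_cM X lam _ m) (norm_nonneg _) (TF_cN X lam _ k)
            calc _ ≤ 1 * (1 / Real.sqrt n * (4 * Y)) :=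
                  mul_le_mul h5 h4 (norm_nonneg _) (by norm_num)
              _ = _ := one_mul _
        refine (Finset.sum_le_sum h3).trans ?_
        rw [← Finset.sum_mul]
        exact mul_le_mul_of_nonneg_right (TF_sqrt N) (by positivity)
      refine (Finset.sum_le_sum h2).trans ?_
      simp
    refine (Finset.sum_le_sum h1).trans ?_
    simp
  refine (norm_add_le _ _).trans ?_
  refine (add_le_add hE hoff).trans ?_
  -- final numerics
  have hY3 : (Y : ℝ) ^ 2 ≤ T ^ (2 * δ) := by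
    calc (Y : ℝ) ^ 2 ≤ (T ^ δ) ^ 2 := by gcongr
      _ = T ^ (2 * δ) := by
        rw [← Real.rpow_natCast, ← Real.rpow_mul hTpos.le]
        congr 1
        push_cast
        ring
  have hY4 : (Y : ℝ) ^ 3 ≤ T ^ (3 * δ) := by
    calc (Y : ℝ) ^ 3 ≤ (T ^ δ) ^ 3 := by gcongr
      _ = T ^ (3 * δ) := by
        rw [← Real.rpow_natCast, ← Real.rpow_mul hTpos.le]
        congr 1
        push_cast
        ring
  have hsT : 0 < Real.sqrt T := Real.sqrt_pos.mpr hTpos
  have hTs : T / Real.sqrt T = T ^ (1 / 2 : ℝ) := by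
    rw [← Real.sqrt_eq_rpow, Real.div_sqrt]
  have hsN : Real.sqrt N ≤ 5 / 2 * T ^ (1 / 2 : ℝ) := by
    rw [← Real.sqrt_eq_rpow]
    rw [Real.sqrt_le_left (by positivity), mul_pow, Real.sq_sqrt hTpos.le]
    nlinarith
  have e1 : (C / Real.sqrt T * Y * Y) * |(T + H) - T| ≤ C * T ^ (1 / 2 + 3 * δ) := by
    rw [show (T + H) - T = H by ring, abs_of_pos hHpos]
    calc C / Real.sqrt T * Y * Y * H ≤ C / Real.sqrt T * Y * Y * T := by gcongr
      _ = C * ((T / Real.sqrt T) * (Y : ℝ) ^ 2) := by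
          field_simp
      _ ≤ C * (T ^ (1 / 2 : ℝ) * T ^ (2 * δ)) := by rw [hTs]; gcongr
      _ = C * T ^ (1 / 2 + 2 * δ) := by rw [Real.rpow_add hTpos]
      _ ≤ C * T ^ (1 / 2 + 3 * δ) := by
          gcongr
          · exact hT1.le
          · norm_num
  have e2 : (Y : ℝ) * (Y * (2 * Real.sqrt N * (4 * Y))) ≤ 20 * T ^ (1 / 2 + 3 * δ) := by
    calc (Y : ℝ) * (Y * (2 * Real.sqrt N * (4 * Y))) = 8 * (Real.sqrt N * (Y : ℝ) ^ 3) := by ring
      _ ≤ 8 * ((5 / 2 * T ^ (1 / 2 : ℝ)) * T ^ (3 * δ)) := by gcongr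
      _ = 20 * T ^ (1 / 2 + 3 * δ) := by rw [Real.rpow_add hTpos]; ring
  calc _ ≤ C * T ^ (1 / 2 + 3 * δ) + 20 * T ^ (1 / 2 + 3 * δ) := add_le_add e1 e2
    _ = (C + 20) * T ^ (1 / 2 + 3 * δ) := by ring

end

end HZS
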