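import Pool.Agent.Work.MP_c51bc2_nt_s.Interface

/-! # TW0s: the twisted second moment of Hardy's function on short intervals (after helper70's TW0) -/

open Finset Complex MeasureTheory

namespace HZS

theorem TW0s_mo_cont (n : ℕ) (hn : 1 ≤ n) : Continuous (mo n) := by
  unfold mo
  exact Continuous.const_cpow (by fun_prop) (Or.inl (by exact_mod_cast (by omega : n ≠ 0)))

theorem TW0s_norm_mo (n : ℕ) (hn : 1 ≤ n) (t : ℝ) : ‖mo n t‖ ≤ 1 := by
  unfold mo
  rw [Complex.norm_natCast_cpow_of_pos (by omega)]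
  apply Real.rpow_le_one_of_one_le_of_nonpos (by exact_mod_cast hn)
  simp

theorem TW0s_X {L : ℝ} {R : ℕ} {X lam : ℕ → ℝ} (hc : IsChain L R X lam) :
    ∀ j ≤ R, 100 ≤ X j := by
  intro j
  induction j with
  | zero => intro _; rw [hc.x0]
  | succ j ih =>
    intro hj
    have h1 := ih (by omega)
    have h2 := hc.mono j (by omega)
    linarith

theorem TW0s_len {δ L : ℝ} {R : ℕ} {X lam : ℕ → ℝ} (hc : IsChain L R X lam) (hsh : Sh δ L R X lam) (j : ℕ)
    (hj : j ≤ R) :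
    ∑ i ∈ range j, (KK lam i : ℝ) * Real.log (X (i + 1)) ≤ 51 * (δ * L / 100) := by
  have h1 : ∀ i ∈ range R, 0 ≤ Real.log (X (i + 1)) := by
    intro i hi
    rw [mem_range] at hi
    exact Real.log_nonneg (by linarith [TW0s_X hc (i + 1) hi])
  have h2 : ∀ i ∈ range R, (KK lam i : ℝ) ≤ 51 * lam i := by
    intro i hi
    rw [mem_range] at hi
    have h3 := hc.lam1 i hi
    unfold KK
    have h4 := Nat.ceil_lt_add_one (show (0 : ℝ) ≤ 50 * lam i by linarith)
    linarith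
  calc ∑ i ∈ range j, (KK lam i : ℝ) * Real.log (X (i + 1)) ≤
      ∑ i ∈ range R, (KK lam i : ℝ) * Real.log (X (i + 1)) := by
        refine Finset.sum_le_sum_of_subset_of_nonneg (Finset.range_mono hj) fun i hi _ => ?_
        exact mul_nonneg (Nat.cast_nonneg _) (h1 i hi)
    _ ≤ ∑ i ∈ range R, 51 * (lam i * Real.log (X (i + 1))) := by
        refine Finset.sum_le_sum fun i hi => ?_
        rw [← mul_assoc]
        exact mul_le_mul_of_nonneg_right (h2 i hi) (h1 i hi)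
    _ = 51 * ∑ i ∈ range R, lam i * Real.log (X (i + 1)) := by rw [Finset.mul_sum]
    _ ≤ _ := mul_le_mul_of_nonneg_left hsh (by norm_num)

theorem TW0s_cM (X lam : ℕ → ℝ) (S : Finset ℕ) (d : ℕ) : ‖cM X lam S d‖ ≤ 1 := by
  unfold cM
  split_ifs
  · rw [Complex.norm_real, Real.norm_eq_abs]
    unfold cf
    rw [Finset.abs_prod]
    refine Finset.prod_le_one (fun p _ => abs_nonneg _) fun p _ => ?_
    rw [abs_div, abs_pow, Nat.abs_cast, div_le_one (by positivity)]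
    have h1 : |(-1 / 2 : ℝ)| ^ (d.factorization p) ≤ 1 :=
      pow_le_one₀ (abs_nonneg _) (by norm_num [abs_le])
    have h2 : (1 : ℝ) ≤ ((d.factorization p).factorial : ℝ) := by
      exact_mod_cast Nat.one_le_iff_ne_zero.2 (Nat.factorial_ne_zero _)
    linarith
  · simp

theorem TW0s_D (b : ℕ → ℂ) (Y : ℕ) (hb : ∀ d, ‖b d‖ ≤ 1) (t : ℝ) : ‖D b Y t‖ ≤ Y := by
  unfold D
  refine (norm_sum_le _ _).trans ?_
  calc ∑ d ∈ Icc 1 Y, ‖b d * mo d t‖ ≤ ∑ d ∈ Icc 1 Y, (1 : ℝ) := by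
        refine Finset.sum_le_sum fun d hd => ?_
        rw [mem_Icc] at hd
        rw [norm_mul]
        exact mul_le_one₀ (hb d) (norm_nonneg _) (TW0s_norm_mo d hd.1 t)
    _ = Y := by simp

theorem TW0s_D_cont (b : ℕ → ℂ) (Y : ℕ) : Continuous (D b Y) := by
  unfold D
  refine continuous_finsetSum _ fun d hd => ?_
  rw [mem_Icc] at hd
  exact continuous_const.mul (TW0s_mo_cont d hd.1)

theorem stmt_TW0s (hAFE : Stmt_AFE) (hFRZ : Stmt_FRZs) (hKF0 : Stmt_KF0) (hCM0 : Stmt_CM0)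
    (hCO : Stmt_CO) (hKER : Stmt_KERs) (hZC : Stmt_ZC) (hPHS : Stmt_PHS) : Stmt_TW0s := by
  intro δ hδ hδ1
  obtain ⟨k, ψ, hk, hk0⟩ := hKER δ hδ hδ1
  obtain ⟨Ca, Ta, hCa, hTa, hafe⟩ := hAFE k ψ hk
  obtain ⟨Cf, Tf, hCf, hTf, hfrz⟩ := hFRZ δ hδ hδ1
  obtain ⟨Cm, hCm, hcm⟩ := hCM0 k ψ hk
  obtain ⟨-, hdc, hph, -⟩ := hPHS
  refine ⟨8 * Cf * Cm + 2 * Ca ^ 2, max (max Ta Tf) (max (2 ^ 100) (2 ^ (100 / δ))), by positivity,
    lt_of_lt_of_le (by norm_num) ((le_max_left _ _).trans (le_max_right _ _)), ?_⟩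
  intro T H R X lam hT hAdm hc hsh j hj hlX
  have hT1 : Ta ≤ T := (le_max_left Ta Tf).trans ((le_max_left _ _).trans hT)
  have hT2 : Tf ≤ T := (le_max_right Ta Tf).trans ((le_max_left _ _).trans hT)
  have hT3 : (2 : ℝ) ^ 100 ≤ T := (le_max_left _ _).trans ((le_max_right _ _).trans hT)
  have hT4 : (2 : ℝ) ^ (100 / δ) ≤ T := (le_max_right _ _).trans ((le_max_right _ _).trans hT)
  have hT0 : 0 < T := lt_of_lt_of_le (by norm_num) hT3
  have hT1' : 1 ≤ T := le_trans (by norm_num) hT3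
  set L : ℝ := Real.log T with hL
  have hLe : 1 ≤ L := by
    rw [hL, Real.le_log_iff_exp_le hT0]
    have := Real.exp_one_lt_d9
    refine le_trans ?_ hT3
    norm_num
    linarith
  have hL0 : 0 < L := by linarith
  have hs : 0 < Real.sqrt T := Real.sqrt_pos.2 hT0
  have hH0 : 0 < H := lt_of_lt_of_le (Real.rpow_pos_of_pos hT0 _) hAdm.1
  have hHT : H ≤ T := hAdm.2
  -- the length
  set a : ℝ := T ^ (δ / 100) with ha
  have ha2 : 2 ≤ a := by
    have h1 : ((2 : ℝ) ^ (100 / δ)) ^ (δ / 100) ≤ a := Real.rpow_le_rpow (by positivity) hT4 (by positivity)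
    refine le_trans (le_of_eq ?_) h1
    rw [← Real.rpow_mul (by norm_num), show 100 / δ * (δ / 100) = 1 by field_simp, Real.rpow_one]
  have ha5 : T ^ δ = a ^ 100 := by
    rw [ha, ← Real.rpow_natCast, ← Real.rpow_mul hT0.le]
    congr 1
    push_cast
    ring
  have ha3 : T ^ (51 * (δ / 100)) = a ^ 51 := by
    rw [ha, ← Real.rpow_natCast, ← Real.rpow_mul hT0.le]
    congr 1
    push_cast
    ring
  set Y : ℕ := ⌊T ^ δ⌋₊ with hY
  have hYle : (Y : ℝ) ≤ T ^ δ := Nat.floor_le (by positivity)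
  have hYge : Real.exp (∑ i ∈ range j, (KK lam i : ℝ) * Real.log (X (i + 1))) ≤ Y := by
    have h1 : Real.exp (∑ i ∈ range j, (KK lam i : ℝ) * Real.log (X (i + 1))) ≤ a ^ 51 := by
      rw [← ha3, Real.rpow_def_of_pos hT0, Real.exp_le_exp]
      refine (TW0s_len hc hsh j hj).trans (le_of_eq ?_)
      rw [← hL]
      ring
    have h2 : T ^ δ < Y + 1 := Nat.lt_floor_add_one _
    rw [ha5] at h2
    have h3 : a ^ 51 + 1 ≤ a ^ 100 := by
      have h4 : 1 ≤ a ^ 51 := one_le_pow₀ (by linarith)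
      have h5 : a ^ 100 = a ^ 51 * a ^ 49 := by ring
      have h6 : 2 ≤ a ^ 49 := by
        calc (2 : ℝ) ≤ a := ha2
          _ = a ^ 1 := (pow_one a).symm
          _ ≤ a ^ 49 := pow_le_pow_right₀ (by linarith) (by norm_num)
      rw [h5]
      nlinarith
    linarith
  obtain ⟨hMM, -, hcM, -⟩ := hCO L R X lam hc (range j) (Finset.range_mono hj) Y hYge
  obtain ⟨G', hG1, hG2, hG3⟩ := hKF0 k ψ hk L hL0
  set G : ℝ → ℂ := fun y => (ψ (y / L) : ℂ) with hG
  have hGc : Continuous G := continuous_iff_continuousAt.2 fun y => (hG1 y).continuousAt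
  set Q : ℝ := Cm * L * Real.log (X j) ^ (-(3 / 4) : ℝ) with hQ
  have hX100 := TW0s_X hc j hj
  have hlX0 : 0 < Real.log (X j) := Real.log_pos (by linarith)
  have hQ0 : 0 ≤ Q := by positivity
  have hmain := hfrz T H Q (cM X lam (range j)) Y G G' hT2 hAdm hQ0 hYle hcM hG1 hG2 (by
    intro y hy
    have h1 : y / L ≤ -δ := by
      rw [div_le_iff₀ hL0]
      linarith
    simp only [hG, hk0 _ h1, Complex.ofReal_zero]) (by
    intro y _
    have hM : Real.log (⌊T ^ (1 / 2 + 3 * δ)⌋₊ : ℝ) ≤ L := by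
      rcases Nat.eq_zero_or_pos ⌊T ^ (1 / 2 + 3 * δ)⌋₊ with h0 | h0
      · rw [h0]
        simp only [Nat.cast_zero, Real.log_zero]
        exact hL0.le
      · refine Real.log_le_log (by exact_mod_cast h0) ?_
        refine (Nat.floor_le (by positivity)).trans ?_
        calc T ^ (1 / 2 + 3 * δ) ≤ T ^ (1 : ℝ) :=
              Real.rpow_le_rpow_of_exponent_le hT1' (by linarith)
          _ = T := Real.rpow_one T
    have h2 := hcm L R X lam hLe hc j hj y ⌊T ^ (1 / 2 + 3 * δ)⌋₊ (by linarith) hM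
    constructor
    · refine le_trans (le_of_eq ?_) h2.1
      refine Finset.sum_congr rfl fun m hm => ?_
      rw [mem_Icc] at hm
      rw [← (hG3 (cM X lam (range j)) y m hm.1).1]
    · refine le_trans (le_of_eq ?_) h2.2
      refine Finset.sum_congr rfl fun m hm => ?_
      rw [mem_Icc] at hm
      rw [← (hG3 (cM X lam (range j)) y m hm.1).2])
  set S0 : ℝ → ℂ := fun t => ∑ n ∈ Icc 1 (N0 T), mo n t * G (dth t - Real.log n) with hS0
  have hS0c : Continuous S0 := by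
    rw [hS0]
    refine continuous_finsetSum _ fun n hn => ?_
    rw [mem_Icc] at hn
    exact (TW0s_mo_cont n hn.1).mul (hGc.comp (hdc.sub continuous_const))
  have hDc := TW0s_D_cont (cM X lam (range j)) Y
  have hpt : ∀ t ∈ Set.Icc T (T + H), |Z t| ^ 2 * ‖MM X lam (range j) t‖ ^ 2 ≤
      8 * (‖S0 t‖ ^ 2 * ‖D (cM X lam (range j)) Y t‖ ^ 2) + 2 * Ca ^ 2 * T ^ (-(9 / 10) : ℝ) := by
    intro t ht
    rw [hMM t]
    have h1 := hafe T t 0 hT1 ht.1 (by linarith [ht.2]) le_rfl zero_le_one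
    have h2 : ph t * ∑ n ∈ Icc 1 (N0 T), mo n t *
        cexp (I * ((0 * (dth t - Real.log n) : ℝ) : ℂ)) *
        (ψ ((dth t - Real.log n) / Real.log T) : ℂ) = ph t * S0 t := by
      simp only [hS0, hG, zero_mul, Complex.ofReal_zero, mul_zero, Complex.exp_zero, mul_one]
      rfl
    rw [h2, add_zero] at h1
    have h3 : |Z t| ≤ 2 * ‖S0 t‖ + Ca / Real.sqrt T := by
      have h4 : |(ph t * S0 t).re| ≤ ‖S0 t‖ := by
        refine (Complex.abs_re_le_norm _).trans ?_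
        rw [norm_mul, hph, one_mul]
      have h5 : |Z t| ≤ |Z t - 2 * (ph t * S0 t).re| + |2 * (ph t * S0 t).re| := by
        have := abs_add_le (Z t - 2 * (ph t * S0 t).re) (2 * (ph t * S0 t).re)
        rwa [sub_add_cancel] at this
      rw [abs_mul, abs_two] at h5
      linarith
    have h6 : |Z t| ^ 2 ≤ 8 * ‖S0 t‖ ^ 2 + 2 * (Ca / Real.sqrt T) ^ 2 := by
      have h7 : |Z t| ^ 2 ≤ (2 * ‖S0 t‖ + Ca / Real.sqrt T) ^ 2 :=
        pow_le_pow_left₀ (abs_nonneg _) h3 2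
      nlinarith [sq_nonneg (2 * ‖S0 t‖ - Ca / Real.sqrt T)]
    have h8 : ‖D (cM X lam (range j)) Y t‖ ^ 2 ≤ T ^ (1 / 10 : ℝ) := by
      have h9 := (TW0s_D (cM X lam (range j)) Y (TW0s_cM X lam (range j)) t).trans hYle
      have h9' : T ^ δ ≤ T ^ (1 / 20 : ℝ) := Real.rpow_le_rpow_of_exponent_le hT1' hδ1
      calc ‖D (cM X lam (range j)) Y t‖ ^ 2 ≤ (T ^ (1 / 20 : ℝ)) ^ 2 :=
            pow_le_pow_left₀ (norm_nonneg _) (h9.trans h9') 2
        _ = T ^ (1 / 10 : ℝ) := by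
          rw [← Real.rpow_natCast, ← Real.rpow_mul hT0.le]
          norm_num
    have h10 : (Ca / Real.sqrt T) ^ 2 = Ca ^ 2 / T := by
      rw [div_pow, Real.sq_sqrt hT0.le]
    rw [h10] at h6
    calc |Z t| ^ 2 * ‖D (cM X lam (range j)) Y t‖ ^ 2 ≤
        (8 * ‖S0 t‖ ^ 2 + 2 * (Ca ^ 2 / T)) * ‖D (cM X lam (range j)) Y t‖ ^ 2 :=
          mul_le_mul_of_nonneg_right h6 (sq_nonneg _)
      _ = 8 * (‖S0 t‖ ^ 2 * ‖D (cM X lam (range j)) Y t‖ ^ 2) +
          2 * (Ca ^ 2 / T) * ‖D (cM X lam (range j)) Y t‖ ^ 2 := by ring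
      _ ≤ 8 * (‖S0 t‖ ^ 2 * ‖D (cM X lam (range j)) Y t‖ ^ 2) +
          2 * (Ca ^ 2 / T) * T ^ (1 / 10 : ℝ) := by gcongr
      _ = _ := by
        have h11 : T ^ (-(9 / 10) : ℝ) = T ^ (1 / 10 : ℝ) / T := by
          rw [show (-(9 / 10) : ℝ) = 1 / 10 - 1 by norm_num, Real.rpow_sub hT0, Real.rpow_one]
        rw [h11]
        ring
  have hMMc : Continuous (MM X lam (range j)) := by
    have : MM X lam (range j) = D (cM X lam (range j)) Y := funext hMM
    rw [this]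
    exact hDc
  have hint : ∫ t in T..(T + H), |Z t| ^ 2 * ‖MM X lam (range j) t‖ ^ 2 ≤
      ∫ t in T..(T + H), (8 * (‖S0 t‖ ^ 2 * ‖D (cM X lam (range j)) Y t‖ ^ 2) +
        2 * Ca ^ 2 * T ^ (-(9 / 10) : ℝ)) := by
    refine intervalIntegral.integral_mono_on (by linarith) ?_ ?_ hpt
    · refine Continuous.intervalIntegrable ?_ _ _
      exact (hZC.abs.pow 2).mul (hMMc.norm.pow 2)
    · refine Continuous.intervalIntegrable ?_ _ _
      exact (continuous_const.mul ((hS0c.norm.pow 2).mul (hDc.norm.pow 2))).add continuous_const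
  refine hint.trans ?_
  have hI : IntervalIntegrable (fun t => 8 * (‖S0 t‖ ^ 2 * ‖D (cM X lam (range j)) Y t‖ ^ 2))
      volume T (T + H) :=
    Continuous.intervalIntegrable
      (continuous_const.mul ((hS0c.norm.pow 2).mul (hDc.norm.pow 2))) _ _
  rw [intervalIntegral.integral_add hI intervalIntegrable_const,
    intervalIntegral.integral_const_mul, intervalIntegral.integral_const, smul_eq_mul]
  have h12 : (T + H - T) * (2 * Ca ^ 2 * T ^ (-(9 / 10) : ℝ)) ≤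
      2 * Ca ^ 2 * (H * L * Real.log (X j) ^ (-(3 / 4) : ℝ)) := by
    have h13 : T ^ (-(9 / 10) : ℝ) ≤ 1 :=
      Real.rpow_le_one_of_one_le_of_nonpos hT1' (by norm_num)
    have h14 : 1 ≤ L * Real.log (X j) ^ (-(3 / 4) : ℝ) := by
      have h15 : L ^ (-(3 / 4) : ℝ) ≤ Real.log (X j) ^ (-(3 / 4) : ℝ) :=
        Real.rpow_le_rpow_of_nonpos hlX0 (by linarith) (by norm_num)
      have h16 : 1 ≤ L * L ^ (-(3 / 4) : ℝ) := by
        have h17 : L * L ^ (-(3 / 4) : ℝ) = L ^ (1 / 4 : ℝ) := by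
          rw [← Real.rpow_one_add' hL0.le (by norm_num)]
          norm_num
        rw [h17]
        exact Real.one_le_rpow hLe (by norm_num)
      exact h16.trans (mul_le_mul_of_nonneg_left h15 hL0.le)
    calc (T + H - T) * (2 * Ca ^ 2 * T ^ (-(9 / 10) : ℝ)) =
        2 * Ca ^ 2 * H * T ^ (-(9 / 10) : ℝ) := by ring
      _ ≤ 2 * Ca ^ 2 * H * 1 := mul_le_mul_of_nonneg_left h13 (by positivity)
      _ ≤ 2 * Ca ^ 2 * H * (L * Real.log (X j) ^ (-(3 / 4) : ℝ)) :=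
          mul_le_mul_of_nonneg_left h14 (by positivity)
      _ = _ := by ring
  calc _ ≤ 8 * (Cf * H * Q) + 2 * Ca ^ 2 * (H * L * Real.log (X j) ^ (-(3 / 4) : ℝ)) :=
        add_le_add (mul_le_mul_of_nonneg_left hmain (by norm_num)) h12
    _ = _ := by rw [hQ]; ring

end HZS
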