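import Pool.Agent.Work.MP_c51bc2_nt_s.Interface
import Pool.Agent.Work.MP_c51bc2_nt.B_TW

/-! # Block TWs: the twisted second moment of the short integral on [T, T+H] (helper68) -/

set_option autoImplicit false

open Finset Complex MeasureTheory

namespace HZS

noncomputable section

theorem TWs_floor (δ T : ℝ) (hδ : 0 < δ) (hT : (2 : ℝ) ^ (3 / δ) ≤ T) :
    T ^ (51 / 100 * δ) ≤ (⌊T ^ δ⌋₊ : ℝ) := by
  have h20 : (1 : ℝ) ≤ (2 : ℝ) ^ (3 / δ) := Real.one_le_rpow (by norm_num) (by positivity)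
  have hT0 : (0 : ℝ) < T := by linarith
  have h1 : T ^ δ < ⌊T ^ δ⌋₊ + 1 := Nat.lt_floor_add_one _
  have h2 : T ^ δ = T ^ (51 / 100 * δ) * T ^ (49 / 100 * δ) := by
    rw [← Real.rpow_add hT0]
    congr 1
    ring
  have h3 : (2 : ℝ) ≤ T ^ (49 / 100 * δ) := by
    have h4 : ((2 : ℝ) ^ (3 / δ)) ^ (49 / 100 * δ) ≤ T ^ (49 / 100 * δ) :=
      Real.rpow_le_rpow (by positivity) hT (by positivity)
    rw [← Real.rpow_mul (by norm_num)] at h4
    have h5 : (3 / δ) * (49 / 100 * δ) = 147 / 100 := by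
      field_simp
      norm_num
    rw [h5] at h4
    have h6 : (2 : ℝ) ^ (1 : ℝ) ≤ (2 : ℝ) ^ (147 / 100 : ℝ) :=
      Real.rpow_le_rpow_of_exponent_le (by norm_num) (by norm_num)
    rw [Real.rpow_one] at h6
    linarith
  have h6 : (1 : ℝ) ≤ T ^ (51 / 100 * δ) := Real.one_le_rpow (by linarith) (by positivity)
  nlinarith

theorem stmt_TWs (hJF : Stmt_JF) (hFRZ : Stmt_FRZs) (hKF : Stmt_KF) (hCM : Stmt_CM) (hCO : Stmt_CO)
    (hKER : Stmt_KERs) (hZC : Stmt_ZC) (hPHS : Stmt_PHS) : Stmt_TWs := by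
  intro δ hδ hδ2
  obtain ⟨k, ψ, hk, hψ0⟩ := hKER δ hδ hδ2
  obtain ⟨C1, T1, hC1, hT1, HJF⟩ := hJF k ψ hk
  obtain ⟨C2, T2, hC2, hT2, HFRZ⟩ := hFRZ δ hδ hδ2
  obtain ⟨C3, hC3, HCM⟩ := hCM k ψ hk
  have hdth : Continuous dth := hPHS.2.1
  refine ⟨8 * (C2 * C3) + 2 * C1 ^ 2, max (max T1 T2) (max (2 ^ 50) ((2 : ℝ) ^ (3 / δ))), by positivity,
    lt_of_lt_of_le (by norm_num) ((le_max_left _ _).trans (le_max_right _ _)), ?_⟩
  intro T H R X lam hT hAdm hch hSh j hj h hh1 hh2 hh3 hX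
  have hTT1 : T1 ≤ T := (le_max_left _ _).trans ((le_max_left _ _).trans hT)
  have hTT2 : T2 ≤ T := (le_max_right _ _).trans ((le_max_left _ _).trans hT)
  have hT50 : (2 : ℝ) ^ 50 ≤ T := (le_max_left _ _).trans ((le_max_right _ _).trans hT)
  have hTδ : (2 : ℝ) ^ (3 / δ) ≤ T := (le_max_right _ _).trans ((le_max_right _ _).trans hT)
  have hT0 : (0 : ℝ) < T := lt_of_lt_of_le (by norm_num) hT50
  have hT1' : (1 : ℝ) < T := lt_of_lt_of_le (by norm_num) hT50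
  set L : ℝ := Real.log T with hL
  have hL1 : 1 ≤ L := by
    rw [hL, Real.le_log_iff_exp_le hT0]
    have := Real.exp_one_lt_d9
    have h2 : (3 : ℝ) ≤ 2 ^ 50 := by norm_num
    linarith
  have hL0 : 0 < L := by linarith
  have hh0 : 0 < h := lt_of_lt_of_le (by positivity) hh1
  -- the length
  set Y : ℕ := ⌊T ^ δ⌋₊ with hY
  have hYT : (Y : ℝ) ≤ T ^ δ := Nat.floor_le (by positivity)
  have hH0pos : 0 < H := lt_of_lt_of_le (Real.rpow_pos_of_pos hT0 _) hAdm.1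
  have hHT : H ≤ T := hAdm.2
  have hXlog : ∀ i : ℕ, i ≤ R → 1 ≤ Real.log (X i) := by
    intro i hi
    have h1 := TW_X hch i hi
    rw [Real.le_log_iff_exp_le (by linarith)]
    have := Real.exp_one_lt_d9
    linarith
  have hlen : Real.exp (∑ i ∈ range j, (KK lam i : ℝ) * Real.log (X (i + 1))) ≤ Y := by
    have h1 : ∑ i ∈ range j, (KK lam i : ℝ) * Real.log (X (i + 1)) ≤ 51 / 100 * δ * L := by
      have h2 : ∑ i ∈ range j, (KK lam i : ℝ) * Real.log (X (i + 1)) ≤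
          ∑ i ∈ range R, 51 * (lam i * Real.log (X (i + 1))) := by
        have h3 : ∀ i ∈ range R, (KK lam i : ℝ) * Real.log (X (i + 1)) ≤
            51 * (lam i * Real.log (X (i + 1))) := by
          intro i hi
          have hi' : i < R := mem_range.mp hi
          have h4 := hXlog (i + 1) hi'
          have h5 := hch.lam1 i hi'
          have h6 : (KK lam i : ℝ) ≤ 51 * lam i := by
            have := Nat.ceil_lt_add_one (a := 50 * lam i) (by linarith)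
            unfold KK
            linarith
          nlinarith
        refine (sum_le_sum_of_subset_of_nonneg (range_subset_range.mpr hj) ?_).trans
          (sum_le_sum h3)
        intro i hi _
        have h4 := hXlog (i + 1) (mem_range.mp hi)
        exact mul_nonneg (Nat.cast_nonneg _) (by linarith)
      rw [← mul_sum] at h2
      have := hSh
      unfold Sh at this
      linarith
    refine le_trans ?_ (TWs_floor δ T hδ hTδ)
    rw [Real.rpow_def_of_pos hT0]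
    apply Real.exp_le_exp.mpr
    rw [← hL]
    linarith
  obtain ⟨hM, -, hcM, -⟩ := hCO L R X lam hch (range j) (range_subset_range.mpr hj) Y hlen
  -- the Fourier representation
  obtain ⟨G', hG1, hG2, hG3, hG4⟩ := hKF k ψ hk L h hL0 hh0.le
  have hGc : Continuous (GG ψ L h) :=
    continuous_iff_continuousAt.mpr fun y => (hG1 y).continuousAt
  set lx : ℝ := Real.log (X j) with hlx
  have hlx1 : 1 ≤ lx := hXlog j hj
  set Q : ℝ := C3 * h * lx ^ (-(3 / 4) : ℝ) with hQ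
  have hQ0 : 0 ≤ Q := by
    have : 0 ≤ lx ^ (-(3 / 4) : ℝ) := Real.rpow_nonneg (by linarith) _
    positivity
  set b : ℕ → ℂ := cM X lam (range j) with hb
  set H0 : ℝ → ℂ := fun t => ∑ n ∈ Icc 1 (N0 T), mo n t * GG ψ L h (dth t - Real.log n) with hH0
  have hH0c : Continuous H0 := by
    refine continuous_finsetSum _ fun n hn => ?_
    exact (TW_mo_cont n (mem_Icc.mp hn).1).mul (hGc.comp (hdth.sub continuous_const))
  have hF := HFRZ T H Q b Y (GG ψ L h) G' hTT2 hAdm hQ0 hYT (fun d hd => hcM d hd) hG1 hG2 (by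
    intro y hy
    unfold GG
    have h1 : y / L ≤ -δ := by
      rw [div_le_iff₀ hL0]
      linarith
    rw [hψ0 _ h1]
    simp) (by
    intro y hy
    have h1 := HCM L R X lam hL1 hch j hj h y ⌊T ^ (1 / 2 + 3 * δ)⌋₊ hh1 hh2 hh3 hX hy
    constructor
    · refine le_trans (le_of_eq ?_) h1.1
      refine sum_congr rfl fun m hm => ?_
      rw [(hG4 b y m (mem_Icc.mp hm).1).1]
    · refine le_trans (le_of_eq ?_) h1.2
      refine sum_congr rfl fun m hm => ?_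
      rw [(hG4 b y m (mem_Icc.mp hm).1).2])
  -- the pointwise inequality
  have hDc : Continuous (D b Y) := TW_D_cont b Y
  have hJc : Continuous (J h) := TW_J_cont hZC h
  have hpt : ∀ t ∈ Set.Icc T (T + H), |J h t| ^ 2 * ‖MM X lam (range j) t‖ ^ 2 ≤
      8 * (‖H0 t‖ ^ 2 * ‖D b Y t‖ ^ 2) + 2 * C1 ^ 2 / T * (Y : ℝ) ^ 2 := by
    intro t ht
    have h1 := HJF T t h hTT1 ht.1 (by linarith [ht.2]) hh0.le hh2
    rw [hM t]
    have h2 : |J h t| ^ 2 ≤ 8 * ‖H0 t‖ ^ 2 + 2 * C1 ^ 2 / T := by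
      have h3 : |J h t| ≤ 2 * ‖H0 t‖ + C1 / Real.sqrt T := h1
      have h4 : (C1 / Real.sqrt T) ^ 2 = C1 ^ 2 / T := by
        rw [div_pow, Real.sq_sqrt hT0.le]
      have h5 : |J h t| ^ 2 ≤ (2 * ‖H0 t‖ + C1 / Real.sqrt T) ^ 2 :=
        pow_le_pow_left₀ (abs_nonneg _) h3 2
      have h6 : (2 * ‖H0 t‖ + C1 / Real.sqrt T) ^ 2 ≤
          8 * ‖H0 t‖ ^ 2 + 2 * (C1 / Real.sqrt T) ^ 2 := by
        nlinarith [sq_nonneg (2 * ‖H0 t‖ - C1 / Real.sqrt T)]
      rw [h4] at h6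
      calc |J h t| ^ 2 ≤ _ := h5
        _ ≤ _ := h6
        _ = _ := by ring
    have h7 : ‖D b Y t‖ ^ 2 ≤ (Y : ℝ) ^ 2 :=
      pow_le_pow_left₀ (norm_nonneg _) (TW_D b (fun d => TW_cM X lam _ d) Y t) 2
    have h8 : 0 ≤ 2 * C1 ^ 2 / T := by positivity
    have h9 : 0 ≤ ‖D b Y t‖ ^ 2 := by positivity
    calc |J h t| ^ 2 * ‖D b Y t‖ ^ 2 ≤ (8 * ‖H0 t‖ ^ 2 + 2 * C1 ^ 2 / T) * ‖D b Y t‖ ^ 2 :=
          mul_le_mul_of_nonneg_right h2 h9
      _ = 8 * (‖H0 t‖ ^ 2 * ‖D b Y t‖ ^ 2) + 2 * C1 ^ 2 / T * ‖D b Y t‖ ^ 2 := by ring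
      _ ≤ _ := by
          have := mul_le_mul_of_nonneg_left h7 h8
          linarith
  have hMc : Continuous fun t => MM X lam (range j) t := by
    have : (fun t => MM X lam (range j) t) = D b Y := funext hM
    rw [this]
    exact hDc
  have hle : T ≤ T + H := by linarith
  have hint1 : IntervalIntegrable (fun t => |J h t| ^ 2 * ‖MM X lam (range j) t‖ ^ 2) volume
      T (T + H) := by
    apply Continuous.intervalIntegrable
    exact ((hJc.abs).pow 2).mul (hMc.norm.pow 2)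
  have hint2 : IntervalIntegrable (fun t => 8 * (‖H0 t‖ ^ 2 * ‖D b Y t‖ ^ 2)) volume T (T + H) := by
    apply Continuous.intervalIntegrable
    exact continuous_const.mul ((hH0c.norm.pow 2).mul (hDc.norm.pow 2))
  have hint3 : IntervalIntegrable (fun _ : ℝ => 2 * C1 ^ 2 / T * (Y : ℝ) ^ 2) volume T (T + H) :=
    continuous_const.intervalIntegrable _ _
  have hmain := intervalIntegral.integral_mono_on hle hint1 (hint2.add hint3) hpt
  rw [intervalIntegral.integral_add hint2 hint3, intervalIntegral.integral_const_mul,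
    intervalIntegral.integral_const] at hmain
  have h20 : (T + H - T) • (2 * C1 ^ 2 / T * (Y : ℝ) ^ 2) = 2 * C1 ^ 2 * (H * ((Y : ℝ) ^ 2 / T)) := by
    rw [smul_eq_mul]
    field_simp
    ring
  rw [h20] at hmain
  -- the error term
  have hYsq : (Y : ℝ) ^ 2 ≤ T * h * lx ^ (-(3 / 4) : ℝ) := by
    have h1 : (Y : ℝ) ^ 2 ≤ T ^ (1 / 10 : ℝ) := by
      have hYT' : (Y : ℝ) ≤ T ^ (1 / 20 : ℝ) :=
        hYT.trans (Real.rpow_le_rpow_of_exponent_le hT1'.le hδ2)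
      have : (Y : ℝ) ^ 2 ≤ (T ^ (1 / 20 : ℝ)) ^ 2 := pow_le_pow_left₀ (Nat.cast_nonneg _) hYT' 2
      have h0 : (T ^ (1 / 20 : ℝ)) ^ 2 = T ^ (1 / 10 : ℝ) := by
        rw [← Real.rpow_natCast, ← Real.rpow_mul hT0.le]
        norm_num
      rw [h0] at this
      exact this
    have h2 : 1 / L ≤ lx ^ (-(3 / 4) : ℝ) := by
      have h3 : lx ^ (-1 : ℝ) ≤ lx ^ (-(3 / 4) : ℝ) :=
        Real.rpow_le_rpow_of_exponent_le hlx1 (by norm_num)
      rw [Real.rpow_neg_one] at h3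
      refine le_trans ?_ h3
      rw [one_div]
      apply inv_anti₀ (by linarith)
      linarith
    have h4 : T * (1 / L) * (1 / L) ≤ T * h * lx ^ (-(3 / 4) : ℝ) := by
      apply mul_le_mul _ h2 (by positivity) (by positivity)
      exact mul_le_mul_of_nonneg_left hh1 hT0.le
    have h5 : L ≤ T ^ (1 / 4 : ℝ) / (1 / 4) := Real.log_le_rpow_div hT0.le (by norm_num)
    have h6 : L ^ 2 ≤ 16 * T ^ (1 / 2 : ℝ) := by
      have : L ^ 2 ≤ (T ^ (1 / 4 : ℝ) / (1 / 4)) ^ 2 := pow_le_pow_left₀ hL0.le h5 2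
      have h7 : (T ^ (1 / 4 : ℝ)) ^ 2 = T ^ (1 / 2 : ℝ) := by
        rw [← Real.rpow_natCast, ← Real.rpow_mul hT0.le]
        norm_num
      calc L ^ 2 ≤ (T ^ (1 / 4 : ℝ) / (1 / 4)) ^ 2 := this
        _ = 16 * (T ^ (1 / 4 : ℝ)) ^ 2 := by ring
        _ = _ := by rw [h7]
    have h8 : (16 : ℝ) ≤ T ^ (2 / 5 : ℝ) := by
      have h9 : ((2 : ℝ) ^ (50 : ℝ)) ^ (2 / 5 : ℝ) ≤ T ^ (2 / 5 : ℝ) :=
        Real.rpow_le_rpow (by positivity) (by exact_mod_cast hT50) (by norm_num)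
      rw [← Real.rpow_mul (by norm_num)] at h9
      have h10 : (2 : ℝ) ^ (4 : ℝ) ≤ (2 : ℝ) ^ ((50 : ℝ) * (2 / 5)) :=
        Real.rpow_le_rpow_of_exponent_le (by norm_num) (by norm_num)
      have h11 : (2 : ℝ) ^ (4 : ℝ) = 16 := by
        have : (4 : ℝ) = ((4 : ℕ) : ℝ) := by norm_num
        rw [this, Real.rpow_natCast]
        norm_num
      linarith
    have h12 : T ^ (1 / 10 : ℝ) * L ^ 2 ≤ T := by
      have h13 : T = T ^ (1 / 10 : ℝ) * (T ^ (2 / 5 : ℝ) * T ^ (1 / 2 : ℝ)) := by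
        rw [← Real.rpow_add hT0, ← Real.rpow_add hT0]
        norm_num
      have h14 : 0 < T ^ (1 / 10 : ℝ) := Real.rpow_pos_of_pos hT0 _
      have h15 : 0 < T ^ (1 / 2 : ℝ) := Real.rpow_pos_of_pos hT0 _
      have h16 : L ^ 2 ≤ T ^ (2 / 5 : ℝ) * T ^ (1 / 2 : ℝ) := by nlinarith
      calc T ^ (1 / 10 : ℝ) * L ^ 2 ≤ T ^ (1 / 10 : ℝ) * (T ^ (2 / 5 : ℝ) * T ^ (1 / 2 : ℝ)) :=
            mul_le_mul_of_nonneg_left h16 h14.le
        _ = T := h13.symm
    have h17 : T ^ (1 / 10 : ℝ) ≤ T * (1 / L) * (1 / L) := by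
      have : T * (1 / L) * (1 / L) = T / L ^ 2 := by
        field_simp
      rw [this, le_div_iff₀ (by positivity)]
      exact h12
    exact h1.trans (h17.trans h4)
  have hYT2 : (Y : ℝ) ^ 2 / T ≤ h * lx ^ (-(3 / 4) : ℝ) := by
    rw [div_le_iff₀ hT0]
    calc (Y : ℝ) ^ 2 ≤ T * h * lx ^ (-(3 / 4) : ℝ) := hYsq
      _ = h * lx ^ (-(3 / 4) : ℝ) * T := by ring
  calc ∫ t in T..(T + H), |J h t| ^ 2 * ‖MM X lam (range j) t‖ ^ 2
      ≤ 8 * (∫ t in T..(T + H), ‖H0 t‖ ^ 2 * ‖D b Y t‖ ^ 2) +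
          2 * C1 ^ 2 * (H * ((Y : ℝ) ^ 2 / T)) := hmain
    _ ≤ 8 * (C2 * H * Q) + 2 * C1 ^ 2 * (H * (h * lx ^ (-(3 / 4) : ℝ))) := by
        have h1 := mul_le_mul_of_nonneg_left (mul_le_mul_of_nonneg_left hYT2 hH0pos.le)
          (by positivity : 0 ≤ 2 * C1 ^ 2)
        linarith
    _ = (8 * (C2 * C3) + 2 * C1 ^ 2) * H * h * lx ^ (-(3 / 4) : ℝ) := by
        rw [hQ]
        ring

end

end HZS
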