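import Pool.Agent.Work.MP_c51bc2_nt.B_TF
import Pool.Agent.Work.MP_c51bc2_nt_s.Interface

open Finset Complex MeasureTheory

namespace HZS

theorem stmt_ZBs (hZS : Stmt_ZS) (hPH : Stmt_PHS) : Stmt_ZBs := by
  obtain ⟨C, T0, hC, hT0, h⟩ := hZS
  obtain ⟨-, -, hph, -⟩ := hPH
  refine ⟨C + 6, T0, by linarith, hT0, fun T t hT hTt ht => ?_⟩
  have hT1 : 1 ≤ T := by linarith
  have hs1 : 1 ≤ Real.sqrt T := by rw [Real.one_le_sqrt]; exact hT1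
  have h1 : |Z t| ≤ ‖riemannZeta (1 / 2 + I * t)‖ := by
    unfold Z
    calc |(ph t * riemannZeta (1 / 2 + I * t)).re| ≤ ‖ph t * riemannZeta (1 / 2 + I * t)‖ :=
          Complex.abs_re_le_norm _
      _ = ‖riemannZeta (1 / 2 + I * t)‖ := by rw [norm_mul, hph, one_mul]
  have h2 := h T t hT (by linarith) ht
  have h3 : ‖∑ n ∈ Icc 1 (N0 T), mo n t‖ ≤ 2 * Real.sqrt (N0 T : ℝ) := by
    calc ‖∑ n ∈ Icc 1 (N0 T), mo n t‖ ≤ ∑ n ∈ Icc 1 (N0 T), ‖mo n t‖ := norm_sum_le _ _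
      _ = ∑ n ∈ Icc 1 (N0 T), 1 / Real.sqrt n := Finset.sum_congr rfl fun n hn =>
          TF_mo_norm (Finset.mem_Icc.mp hn).1 t
      _ ≤ 2 * Real.sqrt (N0 T : ℝ) := TF_sqrt _
  have h4 : (N0 T : ℝ) ≤ 9 * T := by
    have h5 := (Nat.ceil_lt_add_one (show (0 : ℝ) ≤ 3 * T by linarith)).le
    rw [N0]
    push_cast
    linarith
  have h6 : Real.sqrt (N0 T : ℝ) ≤ 3 * Real.sqrt T := by
    calc Real.sqrt (N0 T : ℝ) ≤ Real.sqrt (9 * T) := Real.sqrt_le_sqrt h4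
      _ = 3 * Real.sqrt T := by
        rw [Real.sqrt_mul (by norm_num), show (9 : ℝ) = 3 ^ 2 by norm_num,
          Real.sqrt_sq (by norm_num)]
  have h5 : C / Real.sqrt T ≤ C * Real.sqrt T := by
    calc C / Real.sqrt T ≤ C := div_le_self hC.le hs1
      _ ≤ C * Real.sqrt T := le_mul_of_one_le_right hC.le hs1
  have h7 : ‖riemannZeta (1 / 2 + I * t)‖ ≤
      ‖riemannZeta (1 / 2 + I * t) - ∑ n ∈ Icc 1 (N0 T), mo n t‖ +
        ‖∑ n ∈ Icc 1 (N0 T), mo n t‖ := by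
    have := norm_add_le (riemannZeta (1 / 2 + I * t) - ∑ n ∈ Icc 1 (N0 T), mo n t)
      (∑ n ∈ Icc 1 (N0 T), mo n t)
    rwa [sub_add_cancel] at this
  linarith

end HZS
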