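import Pool.Agent.Work.MP_c51bc2_nt_s.Fin
import Pool.Agent.Work.MP_c51bc2_nt_s.B_FINAs
import Pool.Agent.Work.MP_c51bc2_nt_s.B_FINBs
import Pool.Agent.Work.MP_c51bc2_nt_s.B_FINCs
import Pool.Agent.Work.MP_c51bc2_nt_s.B_FINDs
import Pool.Agent.Work.MP_c51bc2_nt_s.B_FRZs
import Pool.Agent.Work.MP_c51bc2_nt_s.B_KERs
import Pool.Agent.Work.MP_c51bc2_nt_s.B_LBFs
import Pool.Agent.Work.MP_c51bc2_nt_s.B_MAINs
import Pool.Agent.Work.MP_c51bc2_nt_s.B_MO2s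
import Pool.Agent.Work.MP_c51bc2_nt_s.B_MOs
import Pool.Agent.Work.MP_c51bc2_nt_s.B_MVPs
import Pool.Agent.Work.MP_c51bc2_nt_s.B_PARs
import Pool.Agent.Work.MP_c51bc2_nt_s.B_TFs
import Pool.Agent.Work.MP_c51bc2_nt_s.B_TW0s
import Pool.Agent.Work.MP_c51bc2_nt_s.B_TWs
import Pool.Agent.Work.MP_c51bc2_nt_s.B_ZBs
import Pool.Agent.Work.MP_c51bc2_nt.B_AFE
import Pool.Agent.Work.MP_c51bc2_nt.B_CM
import Pool.Agent.Work.MP_c51bc2_nt.B_CM0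
import Pool.Agent.Work.MP_c51bc2_nt.B_CO
import Pool.Agent.Work.MP_c51bc2_nt.B_CO1
import Pool.Agent.Work.MP_c51bc2_nt.B_DB
import Pool.Agent.Work.MP_c51bc2_nt.B_DL
import Pool.Agent.Work.MP_c51bc2_nt.B_FV
import Pool.Agent.Work.MP_c51bc2_nt.B_HP
import Pool.Agent.Work.MP_c51bc2_nt.B_JF
import Pool.Agent.Work.MP_c51bc2_nt.B_KF
import Pool.Agent.Work.MP_c51bc2_nt.B_KF0
import Pool.Agent.Work.MP_c51bc2_nt.B_LF
import Pool.Agent.Work.MP_c51bc2_nt.B_LFE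
import Pool.Agent.Work.MP_c51bc2_nt.B_LFP
import Pool.Agent.Work.MP_c51bc2_nt.B_LOC1
import Pool.Agent.Work.MP_c51bc2_nt.B_LOC2
import Pool.Agent.Work.MP_c51bc2_nt.B_MERS
import Pool.Agent.Work.MP_c51bc2_nt.B_MSB
import Pool.Agent.Work.MP_c51bc2_nt.B_PHS
import Pool.Agent.Work.MP_c51bc2_nt.B_PWR
import Pool.Agent.Work.MP_c51bc2_nt.B_RZ
import Pool.Agent.Work.MP_c51bc2_nt.B_SKE
import Pool.Agent.Work.MP_c51bc2_nt.B_TEL
import Pool.Agent.Work.MP_c51bc2_nt.B_TR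
import Pool.Agent.Work.MP_c51bc2_nt.B_TU
import Pool.Agent.Work.MP_c51bc2_nt.B_WT
import Pool.Agent.Work.MP_c51bc2_nt.B_ZC
import Pool.Agent.Work.MP_c51bc2_nt.B_ZS

/-! All the blocks together, on `[T, T+H]`. -/

namespace HZS

theorem alls_ZC : Stmt_ZC := stmt_ZC stmt_PHS
theorem alls_AFE : Stmt_AFE := stmt_AFE stmt_PHS stmt_RZ stmt_ZS alls_ZC
theorem alls_JF : Stmt_JF := stmt_JF alls_AFE alls_ZC stmt_PHS
theorem alls_FRZ : Stmt_FRZs := stmt_FRZs stmt_PHS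
theorem alls_CO : Stmt_CO := stmt_CO (stmt_CO1 stmt_PWR)
theorem alls_LF : Stmt_LF := stmt_LF stmt_LFP stmt_LFE
theorem alls_FV : Stmt_FV := stmt_FV stmt_MER stmt_MERL stmt_MER1 stmt_MER2
theorem alls_MSB : Stmt_MSB := stmt_MSB stmt_LOC1 stmt_LOC2 alls_LF alls_FV stmt_MER
theorem alls_CM : Stmt_CM := stmt_CM alls_MSB stmt_DB stmt_WT stmt_HP
theorem alls_TW : Stmt_TWs :=
  stmt_TWs alls_JF alls_FRZ stmt_KF alls_CM alls_CO stmt_KERs alls_ZC stmt_PHS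
theorem alls_MO : Stmt_MOs := stmt_MOs alls_CO stmt_PWR stmt_SKE stmt_MVPs stmt_MER
theorem alls_MAIN : Stmt_MAINs := stmt_MAINs alls_TW alls_MO (stmt_TEL stmt_TR) alls_ZC
theorem alls_PAR : Stmt_PARs := stmt_PARs stmt_MER stmt_MER2
theorem alls_FINA : Stmt_FINAs := stmt_FINAs alls_MAIN alls_PAR
theorem alls_ZB : Stmt_ZBs := stmt_ZBs stmt_ZS stmt_PHS
theorem alls_FINB : Stmt_FINBs := stmt_FINBs alls_FINA alls_ZB alls_ZC
theorem alls_CM0 : Stmt_CM0 := stmt_CM0 alls_MSB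
theorem alls_TW0 : Stmt_TW0s :=
  stmt_TW0s alls_AFE alls_FRZ stmt_KF0 alls_CM0 alls_CO stmt_KERs alls_ZC stmt_PHS
theorem alls_MO2 : Stmt_MO2s := stmt_MO2s alls_CO stmt_PWR stmt_SKE stmt_MVPs stmt_MER
theorem alls_TF : Stmt_TFs := stmt_TFs stmt_ZS alls_CO
theorem alls_DL : Stmt_DL := stmt_DL stmt_MERL
theorem alls_LBF : Stmt_LBFs :=
  stmt_LBFs alls_TW0 alls_MO2 alls_TF alls_DL stmt_TU alls_CO alls_PAR stmt_RZ stmt_PHS alls_ZC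
theorem alls_FINC : Stmt_FINCs := stmt_FINCs alls_FINA alls_LBF alls_ZB alls_ZC
theorem alls_FIND : Stmt_FINDs := stmt_FINDs alls_FINB alls_LBF

end HZS
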