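import Pool.Agent.Work.MP_c51bc2_nt.Fin
import Pool.Agent.Work.MP_c51bc2_nt_s.Interface

/-! The final statement of MP_c51bc2_nt on `[T, T+H]` from the blocks. -/

open Finset Complex MeasureTheory

namespace HZS

theorem fins_adm {ε T H : ℝ} (hT : 1 ≤ T) (h1 : T ^ (1 / 2 + ε) ≤ H) (h2 : H ≤ T) :
    Adm (min (ε / 4) (1 / 20)) T H := by
  refine ⟨le_trans (Real.rpow_le_rpow_of_exponent_le hT ?_) h1, h2⟩
  have := min_le_left (ε / 4) (1 / 20)
  linarith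

theorem fins (hRZ : Stmt_RZ) (hC : Stmt_FINCs) (hD : Stmt_FINDs) :
    ∃ Z : ℝ → ℝ,
      (∀ t : ℝ, (Z t : ℂ) =
        (Real.pi : ℂ) ^ (-(I * t / 2)) * Complex.Gamma (1 / 4 + I * t / 2) /
          (‖Complex.Gamma (1 / 4 + I * t / 2)‖ : ℂ) * riemannZeta (1 / 2 + I * t)) ∧
      ∀ ε : ℝ, 0 < ε → ∃ C T₀ W₀ : ℝ, 0 < C ∧ 1 < T₀ ∧ 0 < W₀ ∧
        ∀ T H h : ℝ, T₀ ≤ T → T ^ (1 / 2 + ε) ≤ H → H ≤ T → W₀ / Real.log T ≤ h → h ≤ 1 / 5 →
          (∫ t in T..(T + H), |(∫ u in t..(t + h), max (Z u) 0) + ∫ u in t..(t + h), min (Z u) 0| ≤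
            C * (h * Real.log T) ^ (-(1 / 4) : ℝ) * ∫ t in T..(T + H),
              ((∫ u in t..(t + h), max (Z u) 0) - ∫ u in t..(t + h), min (Z u) 0)) ∧
          (∫ t in {u : ℝ | u ∈ Set.Icc T (T + H) ∧
              ((∀ x : ℝ, |x - u| < h → 0 ≤ Z x) ∨ (∀ x : ℝ, |x - u| < h → Z x ≤ 0))}, |Z t| ≤
            C * (h * Real.log T) ^ (-(1 / 4) : ℝ) * ∫ t in T..(T + H), |Z t|) := by
  refine ⟨Z, zspec hRZ, fun ε hε => ?_⟩
  have hδ : 0 < min (ε / 4) (1 / 20) := lt_min (by linarith) (by norm_num)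
  have hδ1 : min (ε / 4) (1 / 20) ≤ 1 / 20 := min_le_right _ _
  obtain ⟨C2, T2, W2, hC2, hT2, hW2, h2⟩ := hC _ hδ hδ1
  obtain ⟨C3, T3, W3, hC3, hT3, hW3, h3⟩ := hD _ hδ hδ1
  refine ⟨max C2 C3, max T2 T3, max W2 W3, lt_max_of_lt_left hC2,
    lt_max_of_lt_left hT2, lt_max_of_lt_left hW2, ?_⟩
  intro T H h hT hH1 hH2 hW hh
  have hTT2 : T2 ≤ T := (le_max_left _ _).trans hT
  have hTT3 : T3 ≤ T := (le_max_right _ _).trans hT
  have hT1' : 1 ≤ T := by linarith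
  have hlog : 0 < Real.log T := Real.log_pos (by linarith)
  have hWW : ∀ W, W ≤ max W2 W3 → W / Real.log T ≤ h := fun W hW' =>
    (div_le_div_of_nonneg_right hW' hlog.le).trans hW
  have hadm := fins_adm hT1' hH1 hH2
  have hh0 : 0 < h := lt_of_lt_of_le (div_pos hW2 hlog) (hWW W2 (le_max_left _ _))
  have hHpos : 0 < H := lt_of_lt_of_le (Real.rpow_pos_of_pos (by linarith) _) hH1
  have hle : T ≤ T + H := by linarith
  have g2 := h2 T H h hTT2 hadm (hWW W2 (le_max_left _ _)) hh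
  have g3 := h3 T H h hTT3 hadm (hWW W3 (le_max_right _ _)) hh
  refine ⟨?_, ?_⟩
  · refine g2.trans ?_
    have h4 : C2 ≤ max C2 C3 := le_max_left _ _
    have h5 : 0 ≤ ∫ t in T..(T + H), |Ip t h + Im t h| :=
      intervalIntegral.integral_nonneg hle fun t _ => abs_nonneg _
    have h6 : 0 ≤ C2 * ((h * Real.log T) ^ (-(1 / 4) : ℝ) *
        ∫ t in T..(T + H), (Ip t h - Im t h)) := by
      rw [← mul_assoc]
      exact h5.trans g2
    have h7 : 0 ≤ (h * Real.log T) ^ (-(1 / 4) : ℝ) * ∫ t in T..(T + H), (Ip t h - Im t h) :=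
      nonneg_of_mul_nonneg_right h6 hC2
    rw [mul_assoc, mul_assoc]
    exact mul_le_mul_of_nonneg_right h4 h7
  · refine g3.trans ?_
    have h4 : C3 ≤ max C2 C3 := le_max_right _ _
    have h5 : 0 ≤ ∫ t in T..(T + H), |Z t| :=
      intervalIntegral.integral_nonneg hle fun t _ => abs_nonneg _
    gcongr

end HZS
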