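import Pool.Agent.Work.MP_c51bc2_nt_s.B_MOs
import Pool.Agent.Work.MP_c51bc2_nt.B_MO2

/-!
# Block MO2s: the moments of `N_R` and `P_j` on `[T, T+H]`
-/

open Finset Complex MeasureTheory

namespace HZS

/-- block MO2s -/
theorem stmt_MO2s (hCO : Stmt_CO) (hPWR : Stmt_PWR) (hSKE : Stmt_SKE) (hMVP : Stmt_MVPs)
    (hMER : Stmt_MER) : Stmt_MO2s := by
  classical
  obtain ⟨C, T0, hC0, hT0, hgen⟩ := MO_gen_s hCO hSKE hMVP hMER
  refine ⟨C, T0, hC0, hT0, ?_⟩
  intro T H R X lam hT hH hc j hjR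
  have hT1 : 1 < T := by linarith
  have hH0 : 0 < H := lt_of_lt_of_le (Real.rpow_pos_of_pos (by linarith) _) hH
  have hL : 0 ≤ Real.log T := (Real.log_pos hT1).le
  set m := mm lam j with hm
  set K := KK lam j with hK
  have hP : ∀ p ∈ PB X j, p.Prime := fun p hp => (mem_filter.1 hp).2.1
  have h := hgen T H R X lam hT hH hc R le_rfl ((range R).erase j) (erase_subset _ _)
    (MO2_E (PB X j) K m) (fun y => (MO2_e (PB X j) m y : ℂ)) (by
    intro y hy
    unfold MO2_E at hy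
    rw [mem_biUnion] at hy
    obtain ⟨k, hk, hy⟩ := hy
    have hk' := mem_range.1 hk
    have h1 := MO_SE_mem hy
    refine ⟨h1.1, ?_, ?_⟩
    · intro p hp i hi hpi
      rw [mem_erase, mem_range] at hi
      exact hi.1 (MO_disj hc hi.2 hjR hpi (h1.2.1 p hp))
    · have h2 := MO_SE_log hc hjR hy
      have h3 := MO_len hc hL (erase_subset j (range R)) hjR (by simp)
        (c := ((k + m : ℕ) : ℝ)) (by
          have h4 := MO_m_le (hc.lam1 j hjR)
          have h5 := MO_K_le (hc.lam1 j hjR)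
          have h6 : (k : ℝ) ≤ K := by exact_mod_cast (by omega : k ≤ K)
          push_cast
          linarith)
      linarith)
  have e1 : ∀ t, ‖NN X lam ((range R).erase j) t‖ ^ 2 *
      ‖∑ y ∈ MO2_E (PB X j) K m, (MO2_e (PB X j) m y : ℂ) * mo y t‖ ^ 2 =
      ‖NN X lam (range R) t‖ ^ 2 * ‖PP X j t‖ ^ (2 * m) := by
    intro t
    rw [← MO2_poly hPWR (PB X j) hP K m t]
    have h2 : NN X lam (range R) t =
        NN X lam ((range R).erase j) t * EP K ((∑ p ∈ PB X j, mo p t) / 2) := by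
      unfold NN
      rw [← prod_erase_mul (range R) _ (mem_range.2 hjR)]
      rfl
    rw [h2]
    unfold PP
    rw [norm_mul, norm_mul, norm_pow, pow_mul, mul_pow, mul_pow, ← pow_mul, ← pow_mul,
      mul_comm m 2]
    ring
  simp only [e1] at h
  refine h.trans ?_
  have hs := MO2_diag (PB X j) hP K m (lam j) (by linarith [hc.lam1 j hjR]) (hc.sig j hjR)
  have hX := MO_X_ge hc (le_refl R)
  have hlX : 0 ≤ Real.log (X R) := Real.log_nonneg (by linarith)
  calc C * H * Real.log (X R) ^ (1 / 4 : ℝ) *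
        ∑ y ∈ MO2_E (PB X j) K m, ‖(MO2_e (PB X j) m y : ℂ)‖ ^ 2 / (y : ℝ)
      ≤ C * H * Real.log (X R) ^ (1 / 4 : ℝ) *
        (Real.exp (lam j / 2) * ((m.factorial : ℝ) * (2 * lam j) ^ m)) := by gcongr
    _ = _ := by ring

end HZS
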